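import Pool.Agent.H55.KM7.SUBT

/-!
# K_MAX_7, row LOC1
-/

set_option autoImplicit false

namespace Pool.KM7

open Finset Real
open Pool.Agent.H49.Ent Pool.Agent.H32.Dense Pool.STK Pool.KA

variable {w L : ℕ}

theorem co_comp {c : Bool} {h p s L : ℕ} (hs : s ≤ p) (hL : L ≤ h) (a a' : ℤ) (z : Fin 2 → ℝ)
    (i : Fin 2) :
    (Sec.mk false L s (a - a' * 2 ^ s)).co (fun i => (Sec.mk c (h - L) (p - s) a').co z i) i =
      (Sec.mk c h p a).co z i := by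
  have h2 : (2 : ℝ) ^ p = 2 ^ (p - s) * 2 ^ s := by rw [← pow_add, Nat.sub_add_cancel hs]
  have h3 : (2 : ℝ) ^ h = 2 ^ (h - L) * 2 ^ L := by rw [← pow_add, Nat.sub_add_cancel hL]
  fin_cases i
  · change (Sec.mk false L s (a - a' * 2 ^ s)).co
      (fun i => (Sec.mk c (h - L) (p - s) a').co z i) 0 = (Sec.mk c h p a).co z 0
    rw [co_zero, co_zero]
    change 2 ^ L * (2 ^ s * (Sec.mk c (h - L) (p - s) a').co z 0 +
      ((a - a' * 2 ^ s : ℤ) : ℝ) * (Sec.mk c (h - L) (p - s) a').co z 1) = _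
    rw [co_zero, co_one]
    simp only
    rw [h2, h3]
    push_cast
    ring
  · change (Sec.mk false L s (a - a' * 2 ^ s)).co
      (fun i => (Sec.mk c (h - L) (p - s) a').co z i) 1 = (Sec.mk c h p a).co z 1
    rw [co_one, co_one]
    change 2 ^ L * (Sec.mk c (h - L) (p - s) a').co z 1 = _
    rw [co_one]
    simp only
    rw [h3]
    ring

theorem co_add_mul (q : Sec) (x y : Fin 2 → ℝ) (t : ℝ) (i : Fin 2) :
    q.co (fun i => x i + t * y i) i = q.co x i + t * q.co y i := by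
  fin_cases i
  · change q.co (fun i => x i + t * y i) 0 = q.co x 0 + t * q.co y 0
    rw [co_zero, co_zero, co_zero]
    ring
  · change q.co (fun i => x i + t * y i) 1 = q.co x 1 + t * q.co y 1
    rw [co_one, co_one, co_one]
    ring

theorem co_div (q : Sec) (x : Fin 2 → ℝ) (t : ℝ) (i : Fin 2) :
    q.co (fun i => x i / t) i = q.co x i / t := by
  fin_cases i
  · change q.co (fun i => x i / t) 0 = q.co x 0 / t
    rw [co_zero, co_zero]
    ring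
  · change q.co (fun i => x i / t) 1 = q.co x 1 / t
    rw [co_one, co_one]
    ring

/-- The position at the time of the sample from the beginning of the window. -/
theorem x_xw (G : Fam 2 (w + L)) (ω : G.Ω) (i : Fin 2) :
    G.x ω i = xw G w (G.T ω / 2 ^ L) ω i +
      ((G.T ω % 2 ^ L : ℕ) : ℝ) / 2 ^ L * (G.d ω i / 2 ^ w) := by
  have h1 : (G.T ω : ℝ) = 2 ^ L * ((G.T ω / 2 ^ L : ℕ) : ℝ) + ((G.T ω % 2 ^ L : ℕ) : ℝ) := by
    have := Nat.div_add_mod (G.T ω) (2 ^ L)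
    calc (G.T ω : ℝ) = ((2 ^ L * (G.T ω / 2 ^ L) + G.T ω % 2 ^ L : ℕ) : ℝ) := by rw [this]
      _ = _ := by push_cast; ring
  unfold Fam.x Fam.t xw
  rw [h1, pow_add]
  field_simp
  ring

theorem fract_sub_of_floor {a b : ℝ} (h : ⌊a⌋ = ⌊b⌋) : Int.fract a - Int.fract b = a - b := by
  unfold Int.fract
  rw [h]
  ring

/-- The local label from the coarse label and the fine one. -/
theorem loc_one (G : Fam 2 (w + L)) (T' : G.Ω → ℕ) (hT' : ∀ ω, T' ω < 2 ^ (w + L))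
    (q₁ : G.Ω → Sec) {c : Bool} {h p s : ℕ} (hs : s ≤ p) (hL : L ≤ h)
    (hT : ∀ ω, 0 < G.p ω → T' ω / 2 ^ L = G.T ω / 2 ^ L)
    (hq : ∀ ω, 0 < G.p ω → (q₁ ω).c = c ∧ (q₁ ω).h = h ∧ (q₁ ω).p = p)
    (a' : G.Ω → ℤ) {T : Type} (W : G.Ω → T)
    (hW : ∀ ω ω', 0 < G.p ω → 0 < G.p ω' → W ω = W ω' →
      Lab (setT G T' hT') q₁ ω = Lab (setT G T' hT') q₁ ω' ∧
      Lab (G.trc w (Nat.le_add_right w L)) (fun ω => ⟨c, h - L, p - s, a' ω⟩) ω =
      Lab (G.trc w (Nat.le_add_right w L)) (fun ω => ⟨c, h - L, p - s, a' ω⟩) ω') :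
    CH G.p (Lab (loc (G.trc w (Nat.le_add_right w L))
        (fun ω => ⟨c, h - L, p - s, a' ω⟩) L (fun ω => T' ω % 2 ^ L)
        (fun _ => Nat.mod_lt _ (by positivity)))
      (fun ω => ⟨false, L, s, (q₁ ω).a - a' ω * 2 ^ s⟩)) W ≤ 4 * Real.log 5 := by
  have hq1 : ∀ ω, 0 < G.p ω → q₁ ω = Sec.mk c h p (q₁ ω).a := by
    intro ω hω
    obtain ⟨h1, h2, h3⟩ := hq ω hω
    rcases hqq : q₁ ω with ⟨c', h', p', a₁⟩
    rw [hqq] at h1 h2 h3
    simp only at h1 h2 h3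
    rw [h1, h2, h3]
  have hsl : ∀ ω ω', Lab (G.trc w (Nat.le_add_right w L))
      (fun ω => ⟨c, h - L, p - s, a' ω⟩) ω = Lab (G.trc w (Nat.le_add_right w L))
      (fun ω => ⟨c, h - L, p - s, a' ω⟩) ω' → a' ω = a' ω' := by
    intro ω ω' e
    have e1 : Sec.mk c (h - L) (p - s) (a' ω) = Sec.mk c (h - L) (p - s) (a' ω') :=
      (Prod.ext_iff.1 (Prod.ext_iff.1 e).1).2
    exact congrArg Sec.a e1
  -- the differences of the local coordinates
  have hd : ∀ ω ω', Lab (G.trc w (Nat.le_add_right w L))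
      (fun ω => ⟨c, h - L, p - s, a' ω⟩) ω = Lab (G.trc w (Nat.le_add_right w L))
      (fun ω => ⟨c, h - L, p - s, a' ω⟩) ω' → ∀ i,
      Int.fract ((Sec.mk c (h - L) (p - s) (a' ω)).co (fun i => G.d ω i / 2 ^ w) i) -
        Int.fract ((Sec.mk c (h - L) (p - s) (a' ω')).co (fun i => G.d ω' i / 2 ^ w) i) =
      (Sec.mk c (h - L) (p - s) (a' ω)).co
        (fun i => G.d ω i / 2 ^ w - G.d ω' i / 2 ^ w) i := by
    intro ω ω' e i
    have e0 := hsl ω ω' e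
    have e1 : ⌊(Sec.mk c (h - L) (p - s) (a' ω)).co (fun i => G.d ω i / 2 ^ w) i⌋ =
        ⌊(Sec.mk c (h - L) (p - s) (a' ω')).co (fun i => G.d ω' i / 2 ^ w) i⌋ :=
      congrFun (Prod.ext_iff.1 (Prod.ext_iff.1 e).2).2 i
    rw [fract_sub_of_floor e1, co_sub, e0]
  have hx : ∀ ω ω', Lab (G.trc w (Nat.le_add_right w L))
      (fun ω => ⟨c, h - L, p - s, a' ω⟩) ω = Lab (G.trc w (Nat.le_add_right w L))
      (fun ω => ⟨c, h - L, p - s, a' ω⟩) ω' → ∀ i,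
      Int.fract ((Sec.mk c (h - L) (p - s) (a' ω)).co
          ((G.trc w (Nat.le_add_right w L)).x ω) i) -
        Int.fract ((Sec.mk c (h - L) (p - s) (a' ω')).co
          ((G.trc w (Nat.le_add_right w L)).x ω') i) =
      (Sec.mk c (h - L) (p - s) (a' ω)).co
        (fun i => (G.trc w (Nat.le_add_right w L)).x ω i -
          (G.trc w (Nat.le_add_right w L)).x ω' i) i := by
    intro ω ω' e i
    have e0 := hsl ω ω' e
    have e1 : ⌊(Sec.mk c (h - L) (p - s) (a' ω)).co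
          ((G.trc w (Nat.le_add_right w L)).x ω) i⌋ =
        ⌊(Sec.mk c (h - L) (p - s) (a' ω')).co
          ((G.trc w (Nat.le_add_right w L)).x ω') i⌋ :=
      congrFun (Prod.ext_iff.1 (Prod.ext_iff.1 e).2).1 i
    rw [fract_sub_of_floor e1, co_sub, e0]
  refine (lab_count (loc (G.trc w (Nat.le_add_right w L))
        (fun ω => ⟨c, h - L, p - s, a' ω⟩) L (fun ω => T' ω % 2 ^ L)
        (fun _ => Nat.mod_lt _ (by positivity)))
      (fun ω => ⟨false, L, s, (q₁ ω).a - a' ω * 2 ^ s⟩) W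
    (K₁ := 1) (K₂ := 1) ?_ ?_ ?_).trans (le_of_eq ?_)
  · intro ω ω' hω hω' hh
    obtain ⟨h1, h2⟩ := hW ω ω' hω hω' hh
    have e1 : T' ω = T' ω' := (Prod.ext_iff.1 (Prod.ext_iff.1 h1).1).1
    have e2 : q₁ ω = q₁ ω' := (Prod.ext_iff.1 (Prod.ext_iff.1 h1).1).2
    have e3 := hsl ω ω' h2
    refine ⟨?_, ?_⟩
    · change T' ω % 2 ^ L = T' ω' % 2 ^ L
      rw [e1]
    · rw [e2, e3]
  · intro ω ω' hω hω' hh i
    obtain ⟨h1, h2⟩ := hW ω ω' hω hω' hh
    obtain ⟨-, -, -, -, -, -, f4⟩ := lab_facts (setT G T' hT') q₁ h1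
    rw [hq1 ω hω] at f4
    have e1 : (fun i => (loc (G.trc w (Nat.le_add_right w L))
        (fun ω => ⟨c, h - L, p - s, a' ω⟩) L (fun ω => T' ω % 2 ^ L)
        (fun _ => Nat.mod_lt _ (by positivity))).d ω i / 2 ^ L -
        (loc (G.trc w (Nat.le_add_right w L))
        (fun ω => ⟨c, h - L, p - s, a' ω⟩) L (fun ω => T' ω % 2 ^ L)
        (fun _ => Nat.mod_lt _ (by positivity))).d ω' i / 2 ^ L) =
        fun i => ((Sec.mk c (h - L) (p - s) (a' ω)).co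
          (fun i => G.d ω i / 2 ^ w - G.d ω' i / 2 ^ w) i) / 2 ^ L := by
      funext i
      rw [← hd ω ω' h2 i, ← sub_div]
      rfl
    rw [e1]
    change |(Sec.mk false L s ((q₁ ω).a - a' ω * 2 ^ s)).co (fun i =>
      ((Sec.mk c (h - L) (p - s) (a' ω)).co
          (fun i => G.d ω i / 2 ^ w - G.d ω' i / 2 ^ w) i) / 2 ^ L) i| ≤ 1
    rw [co_div, co_comp hs hL, abs_div, abs_of_pos (by positivity : (0 : ℝ) < 2 ^ L),
      div_le_one (by positivity)]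
    exact f4 i
  · intro ω ω' hω hω' hh _ i
    obtain ⟨h1, h2⟩ := hW ω ω' hω hω' hh
    have t1 : T' ω = T' ω' := (Prod.ext_iff.1 (Prod.ext_iff.1 h1).1).1
    have q2 : q₁ ω = q₁ ω' := (Prod.ext_iff.1 (Prod.ext_iff.1 h1).1).2
    have x3 : (q₁ ω).lb ((setT G T' hT').x ω) = (q₁ ω).lb ((setT G T' hT').x ω') := by
      have : (q₁ ω).lb ((setT G T' hT').x ω) = (q₁ ω').lb ((setT G T' hT').x ω') :=
        (Prod.ext_iff.1 (Prod.ext_iff.1 h1).2).1
      rwa [← q2] at this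
    have x4 := lb_co x3 i
    rw [hq1 ω hω] at x4
    have e1 : (fun i => (loc (G.trc w (Nat.le_add_right w L))
        (fun ω => ⟨c, h - L, p - s, a' ω⟩) L (fun ω => T' ω % 2 ^ L)
        (fun _ => Nat.mod_lt _ (by positivity))).x ω i -
        (loc (G.trc w (Nat.le_add_right w L))
        (fun ω => ⟨c, h - L, p - s, a' ω⟩) L (fun ω => T' ω % 2 ^ L)
        (fun _ => Nat.mod_lt _ (by positivity))).x ω' i) =
        fun i => (Sec.mk c (h - L) (p - s) (a' ω)).co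
          (fun i => (setT G T' hT').x ω i - (setT G T' hT').x ω' i) i := by
      funext i
      have y1 : (loc (G.trc w (Nat.le_add_right w L))
        (fun ω => ⟨c, h - L, p - s, a' ω⟩) L (fun ω => T' ω % 2 ^ L)
        (fun _ => Nat.mod_lt _ (by positivity))).x ω i -
        (loc (G.trc w (Nat.le_add_right w L))
        (fun ω => ⟨c, h - L, p - s, a' ω⟩) L (fun ω => T' ω % 2 ^ L)
        (fun _ => Nat.mod_lt _ (by positivity))).x ω' i =
        (Int.fract ((Sec.mk c (h - L) (p - s) (a' ω)).co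
          ((G.trc w (Nat.le_add_right w L)).x ω) i) -
        Int.fract ((Sec.mk c (h - L) (p - s) (a' ω')).co
          ((G.trc w (Nat.le_add_right w L)).x ω') i)) +
        ((T' ω % 2 ^ L : ℕ) : ℝ) / 2 ^ L *
        (Int.fract ((Sec.mk c (h - L) (p - s) (a' ω)).co (fun i => G.d ω i / 2 ^ w) i) -
        Int.fract ((Sec.mk c (h - L) (p - s) (a' ω')).co (fun i => G.d ω' i / 2 ^ w) i)) := by
        change (Int.fract ((Sec.mk c (h - L) (p - s) (a' ω)).co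
          ((G.trc w (Nat.le_add_right w L)).x ω) i) +
          ((T' ω % 2 ^ L : ℕ) : ℝ) / 2 ^ L *
          Int.fract ((Sec.mk c (h - L) (p - s) (a' ω)).co (fun i => G.d ω i / 2 ^ w) i)) -
          (Int.fract ((Sec.mk c (h - L) (p - s) (a' ω')).co
          ((G.trc w (Nat.le_add_right w L)).x ω') i) +
          ((T' ω' % 2 ^ L : ℕ) : ℝ) / 2 ^ L *
          Int.fract ((Sec.mk c (h - L) (p - s) (a' ω')).co (fun i => G.d ω' i / 2 ^ w) i)) = _
        rw [← t1]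
        ring
      rw [y1, hx ω ω' h2 i, hd ω ω' h2 i, ← co_add_mul]
      congr 1
      funext j
      have z1 := x_xw (setT G T' hT') ω j
      have z2 := x_xw (setT G T' hT') ω' j
      have z3 : (setT G T' hT').T ω = T' ω := rfl
      have z4 : (setT G T' hT').T ω' = T' ω' := rfl
      rw [z3] at z1
      rw [z4, ← t1] at z2
      rw [z1, z2, trc_x G ω j, trc_x G ω' j, ← hT ω hω, ← hT ω' hω', ← t1]
      change xw G w (T' ω / 2 ^ L) ω j - xw G w (T' ω / 2 ^ L) ω' j +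
        ((T' ω % 2 ^ L : ℕ) : ℝ) / 2 ^ L * (G.d ω j / 2 ^ w - G.d ω' j / 2 ^ w) =
        xw G w (T' ω / 2 ^ L) ω j + ((T' ω % 2 ^ L : ℕ) : ℝ) / 2 ^ L * (G.d ω j / 2 ^ w) -
        (xw G w (T' ω / 2 ^ L) ω' j + ((T' ω % 2 ^ L : ℕ) : ℝ) / 2 ^ L * (G.d ω' j / 2 ^ w))
      ring
    rw [e1]
    change |(Sec.mk false L s ((q₁ ω).a - a' ω * 2 ^ s)).co (fun i =>
      ((Sec.mk c (h - L) (p - s) (a' ω)).co
          (fun i => (setT G T' hT').x ω i - (setT G T' hT').x ω' i) i)) i| ≤ 1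
    rw [co_comp hs hL]
    exact x4
  · norm_num
    ring

/-- The constant. -/
noncomputable def Cl1 : ℝ := Real.log 13 + 2 * Real.log 19 + 2 * Real.log 11 + 4 * Real.log 5

/-- **(LOC1)**. -/
theorem loc1_thm : LOC1Stmt := by
  have hC : 0 ≤ Cl1 := by
    unfold Cl1
    have h1 := Real.log_nonneg (by norm_num : (1 : ℝ) ≤ 11)
    have h3 := Real.log_nonneg (by norm_num : (1 : ℝ) ≤ 13)
    have h4 := Real.log_nonneg (by norm_num : (1 : ℝ) ≤ 19)
    have h5 := Real.log_nonneg (by norm_num : (1 : ℝ) ≤ 5)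
    linarith
  refine ⟨Cl1, hC, ?_⟩
  intro κ hκ0 hκ1 w L G T' hT' q₀ q₁ c h p s hTwo hs hturn
  have hp := G.isLaw
  have hL : L ≤ h := by have := hTwo.lo; omega
  -- the coarse slope from the second label
  have c2 : CH G.p (fun ω => (q₀ ω).a / 2 ^ s)
      (fun ω => (Lab (setT G T' hT') q₁ ω, G.Z ω)) ≤ Real.log 13 := by
    refine (CH_mono_left hp.nonneg (X' := fun ω => (fun _ : Fin 1 => (q₀ ω).a / 2 ^ s))
      ?_).trans ((cnt_vec hp.nonneg hp.sum_one _ _ (c := 6) ?_).trans (le_of_eq ?_))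
    · intro ω ω' _ _ hh
      exact congrFun (Prod.ext_iff.mp hh).1 0
    · intro ω ω' hω hω' hh i
      have h1 := (Prod.ext_iff.1 hh).1
      have h2 : q₁ ω = q₁ ω' := (Prod.ext_iff.1 (Prod.ext_iff.1 h1).1).2
      have h3 := hturn ω hω
      have h4 := hturn ω' hω'
      rw [← h2] at h4
      exact slope_near h3 h4
    · norm_num
  have m1 := meet_one G T' hT' q₁ hs hL hTwo.tm
    (fun ω hω => ⟨(hTwo.c1 ω hω).1, (hTwo.c1 ω hω).2.1, (hTwo.c1 ω hω).2.2.1⟩)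
    (fun ω => (q₀ ω).a / 2 ^ s) (k := 3) (by norm_num)
    (fun ω hω => rem_one (hturn ω hω))
    (fun ω => ((q₀ ω).a / 2 ^ s, (Lab (setT G T' hT') q₁ ω, G.Z ω)))
    (fun ω ω' _ _ hh => ⟨(Prod.ext_iff.1 (Prod.ext_iff.1 hh).2).1, (Prod.ext_iff.1 hh).1⟩)
  have m1' := CH_le_add hp.nonneg
    (Lab (G.trc w (Nat.le_add_right w L)) (fun ω => ⟨c, h - L, p - s, (q₀ ω).a / 2 ^ s⟩))
    (fun ω => (q₀ ω).a / 2 ^ s) (fun ω => (Lab (setT G T' hT') q₁ ω, G.Z ω))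
  have e3 : Real.log (4 * 3 + 7) = Real.log 19 := by norm_num
  have e4 : Real.log (2 * 3 + 5) = Real.log 11 := by norm_num
  rw [e3, e4] at m1
  have l1 := loc_one G T' hT' q₁ hs hL hTwo.tm
    (fun ω hω => ⟨(hTwo.c1 ω hω).1, (hTwo.c1 ω hω).2.1, (hTwo.c1 ω hω).2.2.1⟩)
    (fun ω => (q₀ ω).a / 2 ^ s)
    (fun ω => (Lab (G.trc w (Nat.le_add_right w L))
      (fun ω => ⟨c, h - L, p - s, (q₀ ω).a / 2 ^ s⟩) ω,
      (Lab (setT G T' hT') q₁ ω, G.Z ω)))
    (fun ω ω' _ _ hh => ⟨(Prod.ext_iff.1 (Prod.ext_iff.1 hh).2).1, (Prod.ext_iff.1 hh).1⟩)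
  obtain ⟨X, hX⟩ : ∃ X, X = Lab (loc (G.trc w (Nat.le_add_right w L))
        (fun ω => ⟨c, h - L, p - s, (q₀ ω).a / 2 ^ s⟩) L (fun ω => T' ω % 2 ^ L)
        (fun _ => Nat.mod_lt _ (by positivity)))
      (fun ω => ⟨false, L, s, (q₁ ω).a - (q₀ ω).a / 2 ^ s * 2 ^ s⟩) := ⟨_, rfl⟩
  obtain ⟨Y, hY⟩ : ∃ Y, Y = Lab (G.trc w (Nat.le_add_right w L))
      (fun ω => ⟨c, h - L, p - s, (q₀ ω).a / 2 ^ s⟩) := ⟨_, rfl⟩
  have key : CH G.p Y G.Z + CH G.p X (fun ω => (Y ω, G.Z ω)) ≤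
      CH G.p (Lab (setT G T' hT') q₁) G.Z + Cl1 := by
    have k1 : CH G.p (fun ω => (X ω, Y ω)) G.Z = CH G.p Y G.Z +
      CH G.p X (fun ω => (Y ω, G.Z ω)) := CH_chain hp.nonneg X Y G.Z
    have k2 := CH_le_add hp.nonneg (fun ω => (X ω, Y ω)) (Lab (setT G T' hT') q₁) G.Z
    have k3 : CH G.p (fun ω => (X ω, Y ω)) (fun ω => (Lab (setT G T' hT') q₁ ω, G.Z ω)) =
        CH G.p Y (fun ω => (Lab (setT G T' hT') q₁ ω, G.Z ω)) +
        CH G.p X (fun ω => (Y ω, (Lab (setT G T' hT') q₁ ω, G.Z ω))) :=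
      CH_chain hp.nonneg X Y _
    rw [← hY] at m1' m1 l1
    rw [← hX] at l1
    unfold Cl1
    linarith
  -- the three potentials
  have p1 : Psi κ (setT G T' hT') q₁ = ((w : ℝ) + L) * Real.log 2 +
      (2 * (h : ℝ) + (1 - κ) * p) * Real.log 2 - CH G.p (Lab (setT G T' hT') q₁) G.Z := by
    unfold Psi
    rw [Ex_eq_const (setT G T' hT').isLaw (c := (2 * (h : ℝ) + (1 - κ) * p) * Real.log 2)]
    · push_cast
      rfl
    · intro ω hω
      obtain ⟨-, h2, h3, -⟩ := hTwo.c1 ω hω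
      rw [h2, h3]
  have pM : Psi κ (G.trc w (Nat.le_add_right w L)) (fun ω => ⟨c, h - L, p - s,
      (q₀ ω).a / 2 ^ s⟩) = (w : ℝ) * Real.log 2 +
      (2 * ((h : ℝ) - L) + (1 - κ) * ((p : ℝ) - s)) * Real.log 2 - CH G.p Y G.Z := by
    unfold Psi
    rw [Ex_eq_const (G.trc w (Nat.le_add_right w L)).isLaw
      (c := (2 * ((h : ℝ) - L) + (1 - κ) * ((p : ℝ) - s)) * Real.log 2)]
    · rw [hY]
      rfl
    · intro ω _
      push_cast [hs, hL]
      rfl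
  have pL : Psi κ (loc (G.trc w (Nat.le_add_right w L))
          (fun ω => ⟨c, h - L, p - s, (q₀ ω).a / 2 ^ s⟩) L (fun ω => T' ω % 2 ^ L)
          (fun _ => Nat.mod_lt _ (by positivity)))
        (fun ω => ⟨false, L, s, (q₁ ω).a - (q₀ ω).a / 2 ^ s * 2 ^ s⟩) =
      (L : ℝ) * Real.log 2 + (2 * (L : ℝ) + (1 - κ) * s) * Real.log 2 -
        CH G.p X (fun ω => (Y ω, G.Z ω)) := by
    unfold Psi
    rw [Ex_eq_const (loc (G.trc w (Nat.le_add_right w L))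
          (fun ω => ⟨c, h - L, p - s, (q₀ ω).a / 2 ^ s⟩) L (fun ω => T' ω % 2 ^ L)
          (fun _ => Nat.mod_lt _ (by positivity))).isLaw
      (c := (2 * (L : ℝ) + (1 - κ) * s) * Real.log 2)]
    · rw [hX, hY]
      rfl
    · intro ω _
      rfl
  rw [p1, pM, pL]
  nlinarith

end Pool.KM7
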