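import Pool.Agent.H55.KM7.SubS

/-!
# K_MAX_7, row SUB: the theorem
-/

set_option autoImplicit false

namespace Pool.KM7

open Finset Real
open Pool.Agent.H49.Ent Pool.Agent.H32.Dense Pool.STK Pool.KA

variable {w L : ℕ}

theorem Ex_eq_const {Ω : Type} [Fintype Ω] {p : Ω → ℝ} (hp : IsLaw p) {f : Ω → ℝ} {c : ℝ}
    (h : ∀ ω, 0 < p ω → f ω = c) : Ex p f = c := by
  rw [← Ex_const hp.sum_one c]
  unfold Ex
  refine Finset.sum_congr rfl fun ω _ => ?_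
  rcases (hp.nonneg ω).eq_or_lt with h0 | h0
  · rw [← h0]
    ring
  · rw [h ω h0]

/-- The position of the truncated family. -/
theorem trc_x (G : Fam 2 (w + L)) (ω : G.Ω) (i : Fin 2) :
    (G.trc w (Nat.le_add_right w L)).x ω i = xw G w (G.T ω / 2 ^ L) ω i := by
  have e : (G.trc w (Nat.le_add_right w L)).T ω = G.T ω / 2 ^ L := by
    change G.T ω / 2 ^ (w + L - w) = G.T ω / 2 ^ L
    rw [Nat.add_sub_cancel_left]
  unfold Fam.x Fam.t xw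
  rw [e]
  rfl

theorem trc_T (G : Fam 2 (w + L)) (ω : G.Ω) :
    (G.trc w (Nat.le_add_right w L)).T ω = G.T ω / 2 ^ L := by
  change G.T ω / 2 ^ (w + L - w) = G.T ω / 2 ^ L
  rw [Nat.add_sub_cancel_left]

/-- The meet from one label. -/
theorem meet_one (G : Fam 2 (w + L)) (T' : G.Ω → ℕ) (hT' : ∀ ω, T' ω < 2 ^ (w + L))
    (q₁ : G.Ω → Sec) {c : Bool} {h p s : ℕ} (hs : s ≤ p) (hL : L ≤ h)
    (hT : ∀ ω, 0 < G.p ω → T' ω / 2 ^ L = G.T ω / 2 ^ L)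
    (hq : ∀ ω, 0 < G.p ω → (q₁ ω).c = c ∧ (q₁ ω).h = h ∧ (q₁ ω).p = p)
    (a' : G.Ω → ℤ) {k : ℝ} (hk : 0 ≤ k)
    (hr : ∀ ω, 0 < G.p ω → |((q₁ ω).a : ℝ) - 2 ^ s * a' ω| ≤ k * 2 ^ s)
    {T : Type} (W : G.Ω → T)
    (hW : ∀ ω ω', 0 < G.p ω → 0 < G.p ω' → W ω = W ω' →
      Lab (setT G T' hT') q₁ ω = Lab (setT G T' hT') q₁ ω' ∧ a' ω = a' ω') :
    CH G.p (Lab (G.trc w (Nat.le_add_right w L)) (fun ω => ⟨c, h - L, p - s, a' ω⟩)) W ≤
      2 * Real.log (4 * k + 7) + 2 * Real.log (2 * k + 5) := by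
  have hq1 : ∀ ω, 0 < G.p ω → q₁ ω = Sec.mk c h p (q₁ ω).a := by
    intro ω hω
    obtain ⟨h1, h2, h3⟩ := hq ω hω
    rcases hqq : q₁ ω with ⟨c', h', p', a₁⟩
    rw [hqq] at h1 h2 h3
    simp only at h1 h2 h3
    rw [h1, h2, h3]
  refine (lab_count (G.trc w (Nat.le_add_right w L)) (fun ω => ⟨c, h - L, p - s, a' ω⟩) W
    (K₁ := (1 + k) * 2) (K₂ := (1 + k) * 1) ?_ ?_ ?_).trans (le_of_eq ?_)
  · intro ω ω' hω hω' hh
    obtain ⟨h1, h2⟩ := hW ω ω' hω hω' hh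
    refine ⟨?_, ?_⟩
    · rw [trc_T G ω, trc_T G ω', ← hT ω hω, ← hT ω' hω']
      have : T' ω = T' ω' := (Prod.ext_iff.1 (Prod.ext_iff.1 h1).1).1
      rw [this]
    · rw [h2]
  · intro ω ω' hω hω' hh i
    obtain ⟨h1, h2⟩ := hW ω ω' hω hω' hh
    obtain ⟨-, -, τ, -, -, -, f4⟩ := lab_facts (setT G T' hT') q₁ h1
    rw [hq1 ω hω] at f4
    exact meet_co hs hL hk (hr ω hω) (by norm_num) (fun i => by rw [one_mul]; exact f4 i) i
  · intro ω ω' hω hω' hh _ i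
    obtain ⟨h1, h2⟩ := hW ω ω' hω hω' hh
    obtain ⟨f0, -, τ, f1, f2, f3, f4⟩ := lab_facts (setT G T' hT') q₁ h1
    rw [hq1 ω hω] at f3 f4
    have e1 : (fun i => (G.trc w (Nat.le_add_right w L)).x ω i -
        (G.trc w (Nat.le_add_right w L)).x ω' i) = fun i =>
        xw (setT G T' hT') w ((setT G T' hT').T ω / 2 ^ L) ω i -
          xw (setT G T' hT') w ((setT G T' hT').T ω / 2 ^ L) ω' i := by
      funext i
      rw [trc_x G ω i, trc_x G ω' i, ← hT ω hω, ← hT ω' hω']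
      have : T' ω = T' ω' := f0
      rw [← this]
      rfl
    rw [e1]
    refine meet_co hs hL hk (hr ω hω) (by norm_num) (fun i => ?_) i
    have g1 := f3 i
    have g2 := f4 i
    have pL : (1 : ℝ) ≤ 2 ^ L := one_le_pow₀ (by norm_num)
    obtain ⟨X, hX⟩ : ∃ X, X = (Sec.mk c h p (q₁ ω).a).co (fun i =>
        xw (setT G T' hT') w ((setT G T' hT').T ω / 2 ^ L) ω i -
          xw (setT G T' hT') w ((setT G T' hT').T ω / 2 ^ L) ω' i) i := ⟨_, rfl⟩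
    obtain ⟨Y, hY⟩ : ∃ Y, Y = (Sec.mk c h p (q₁ ω).a).co (fun i =>
        (setT G T' hT').d ω i / 2 ^ w - (setT G T' hT').d ω' i / 2 ^ w) i := ⟨_, rfl⟩
    rw [← hX, ← hY] at g1
    rw [← hY] at g2
    rw [← hX]
    have h5 : |τ * Y| ≤ 2 ^ L := by
      rw [abs_mul, abs_of_nonneg f1]
      calc τ * |Y| ≤ 1 * 2 ^ L := mul_le_mul f2 g2 (abs_nonneg _) (by norm_num)
        _ = 2 ^ L := one_mul _
    rw [abs_le] at g1 h5 ⊢
    constructor <;> linarith [g1.1, g1.2, h5.1, h5.2]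
  · congr 2 <;> congr 1 <;> ring

/-- The join from the two labels. -/
theorem join_one (G : Fam 2 (w + L)) (T' : G.Ω → ℕ) (hT' : ∀ ω, T' ω < 2 ^ (w + L))
    (q₀ q₁ : G.Ω → Sec) {c : Bool} {h p s : ℕ} (hs : s ≤ p)
    (hTwo : Two G T' q₀ q₁ c h p)
    (hturn : ∀ ω, 0 < G.p ω → 2 ^ s ≤ |(q₀ ω).a - (q₁ ω).a| ∧
      |(q₀ ω).a - (q₁ ω).a| < 2 ^ (s + 1)) :
    CH G.p (Lab (G.trc w (Nat.le_add_right w L))
        (fun ω => ⟨c, h + s, p - s, (q₀ ω).a / 2 ^ s⟩))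
      (fun ω => ((Lab G q₀ ω, Lab (setT G T' hT') q₁ ω), G.Z ω)) ≤
      2 * Real.log 19 + 2 * (Real.log 9 + L * Real.log 2) := by
  have hq0 : ∀ ω, 0 < G.p ω → q₀ ω = Sec.mk c h p (q₀ ω).a := by
    intro ω hω
    obtain ⟨h1, h2, h3, -⟩ := hTwo.c0 ω hω
    rcases hqq : q₀ ω with ⟨c', h', p', a₁⟩
    rw [hqq] at h1 h2 h3
    simp only at h1 h2 h3
    rw [h1, h2, h3]
  have hq1 : ∀ ω, 0 < G.p ω → q₁ ω = Sec.mk c h p (q₁ ω).a := by
    intro ω hω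
    obtain ⟨h1, h2, h3, -⟩ := hTwo.c1 ω hω
    rcases hqq : q₁ ω with ⟨c', h', p', a₁⟩
    rw [hqq] at h1 h2 h3
    simp only at h1 h2 h3
    rw [h1, h2, h3]
  have pS : (1 : ℝ) ≤ 2 ^ s := one_le_pow₀ (by norm_num)
  have pL : (1 : ℝ) ≤ 2 ^ L := one_le_pow₀ (by norm_num)
  have hge : ∀ ω, 0 < G.p ω → (2 : ℝ) ^ s ≤ |((q₁ ω).a : ℝ) - (q₀ ω).a| := by
    intro ω hω
    have h1 := (hturn ω hω).1
    rw [abs_sub_comm] at h1
    have h2 : (((2 : ℤ) ^ s : ℤ) : ℝ) ≤ ((|(q₁ ω).a - (q₀ ω).a| : ℤ) : ℝ) := by exact_mod_cast h1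
    push_cast at h2
    exact h2
  refine (lab_count (G.trc w (Nat.le_add_right w L))
    (fun ω => ⟨c, h + s, p - s, (q₀ ω).a / 2 ^ s⟩) _ (K₁ := 8) (K₂ := 3 * 2 ^ L)
    ?_ ?_ ?_).trans ?_
  · intro ω ω' hω hω' hh
    simp only [Prod.mk.injEq] at hh
    obtain ⟨⟨h1, h2⟩, -⟩ := hh
    obtain ⟨f1, f2, -⟩ := lab_facts G q₀ h1
    refine ⟨?_, ?_⟩
    · rw [trc_T G ω, trc_T G ω', f1]
    · rw [f2]
  · intro ω ω' hω hω' hh i
    simp only [Prod.mk.injEq] at hh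
    obtain ⟨⟨h1, h2⟩, -⟩ := hh
    obtain ⟨-, -, -, -, -, -, f4⟩ := lab_facts G q₀ h1
    obtain ⟨-, -, -, -, -, -, g4⟩ := lab_facts (setT G T' hT') q₁ h2
    rw [hq0 ω hω] at f4
    rw [hq1 ω hω] at g4
    have k0 := co_join (c := c) (h := h) hs (q₀ ω).a ((q₀ ω).a / 2 ^ s)
      (fun i => G.d ω i / 2 ^ w - G.d ω' i / 2 ^ w)
    have k1 := num_join_d (S := 2 ^ s) (E := 2 ^ L)
      (A₀ := (Sec.mk c h p (q₀ ω).a).co (fun i => G.d ω i / 2 ^ w - G.d ω' i / 2 ^ w) 0)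
      (A₁ := (Sec.mk c h p (q₁ ω).a).co (fun i => G.d ω i / 2 ^ w - G.d ω' i / 2 ^ w) 0)
      (g := (Sec.mk c h p (q₀ ω).a).co (fun i => G.d ω i / 2 ^ w - G.d ω' i / 2 ^ w) 1)
      (a₀ := (q₀ ω).a) (a₁ := (q₁ ω).a) (a' := 2 ^ s * (((q₀ ω).a / 2 ^ s : ℤ) : ℝ)) pS
      (by rw [co_zero, co_zero, co_one]; simp only; ring) (hge ω hω) (rem_zero s _)
      (f4 0) (g4 0)
    rw [← k0.1, ← k0.2] at k1
    fin_cases i
    · exact k1.1
    · exact k1.2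
  · intro ω ω' hω hω' hh hdir i
    simp only [Prod.mk.injEq] at hh
    obtain ⟨⟨h1, h2⟩, -⟩ := hh
    obtain ⟨f0, -, τ, f1, f2, f3, f4⟩ := lab_facts G q₀ h1
    obtain ⟨g0, -, τ', g1, g2, g3, g4⟩ := lab_facts (setT G T' hT') q₁ h2
    rw [hq0 ω hω] at f3 f4
    rw [hq1 ω hω] at g3 g4
    obtain ⟨δ, hδ⟩ : ∃ δ : Fin 2 → ℝ, δ = fun i => G.d ω i / 2 ^ w - G.d ω' i / 2 ^ w := ⟨_, rfl⟩
    obtain ⟨η, hη⟩ : ∃ η : Fin 2 → ℝ, η = fun i => xw G w (G.T ω / 2 ^ L) ω i -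
      xw G w (G.T ω / 2 ^ L) ω' i := ⟨_, rfl⟩
    have e1 : (fun i => (G.trc w (Nat.le_add_right w L)).x ω i -
        (G.trc w (Nat.le_add_right w L)).x ω' i) = η := by
      rw [hη]
      funext i
      rw [trc_x G ω i, trc_x G ω' i, ← f0]
    have e2 : (fun i => xw (setT G T' hT') w ((setT G T' hT').T ω / 2 ^ L) ω i -
          xw (setT G T' hT') w ((setT G T' hT').T ω / 2 ^ L) ω' i) = η := by
      rw [hη]
      funext i
      have : (setT G T' hT').T ω / 2 ^ L = G.T ω / 2 ^ L := hTwo.tm ω hω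
      rw [this]
      rfl
    have e3 : (fun i => (setT G T' hT').d ω i / 2 ^ w - (setT G T' hT').d ω' i / 2 ^ w) = δ := by
      rw [hδ]
      rfl
    have e4 : (fun i => (G.trc w (Nat.le_add_right w L)).d ω i / 2 ^ w -
        (G.trc w (Nat.le_add_right w L)).d ω' i / 2 ^ w) = δ := by
      rw [hδ]
      rfl
    rw [← hη, ← hδ] at f3
    rw [e2, e3] at g3
    rw [e4] at hdir
    rw [e1]
    have j0 := co_join (c := c) (h := h) hs (q₀ ω).a ((q₀ ω).a / 2 ^ s) δ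
    have j1 := co_join (c := c) (h := h) hs (q₀ ω).a ((q₀ ω).a / 2 ^ s) η
    have d0 : |(Sec.mk c (h + s) (p - s) ((q₀ ω).a / 2 ^ s)).co δ 0| ≤ 1 := hdir 0
    have d1 : |(Sec.mk c (h + s) (p - s) ((q₀ ω).a / 2 ^ s)).co δ 1| ≤ 1 := hdir 1
    rw [j0.1] at d0
    rw [j0.2] at d1
    have k1 := num_join (S := 2 ^ s) (a₀ := (q₀ ω).a) (a₁ := (q₁ ω).a)
      (a' := 2 ^ s * (((q₀ ω).a / 2 ^ s : ℤ) : ℝ))
      (A₀ := (Sec.mk c h p (q₀ ω).a).co δ 0) (A₁ := (Sec.mk c h p (q₁ ω).a).co δ 0)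
      (g := (Sec.mk c h p (q₀ ω).a).co δ 1)
      (B₀ := (Sec.mk c h p (q₀ ω).a).co η 0) (B₁ := (Sec.mk c h p (q₁ ω).a).co η 0)
      (e := (Sec.mk c h p (q₀ ω).a).co η 1) (τ := τ) (τ' := τ') pS
      (by rw [co_zero, co_zero, co_one]; simp only; ring)
      (by rw [co_zero, co_zero, co_one]; simp only; ring)
      (hge ω hω) (rem_zero s _) (rem_one (hturn ω hω).2) ⟨f1, f2⟩ ⟨g1, g2⟩ (f3 0) (g3 0) d0 d1
    rw [← j1.1, ← j1.2] at k1
    fin_cases i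
    · exact k1.1
    · exact k1.2
  · have h3 : Real.log (2 * (3 * 2 ^ L + 1) + 1) ≤ Real.log 9 + L * Real.log 2 := by
      rw [← Real.log_pow, ← Real.log_mul (by norm_num) (by positivity)]
      exact Real.log_le_log (by positivity) (by linarith)
    have h4 : Real.log (2 * (8 + 1) + 1) = Real.log 19 := by norm_num
    rw [h4]
    linarith

/-- The constant. -/
noncomputable def Csb : ℝ :=
  2 * Real.log 11 + 2 * Real.log 7 + (Real.log 13 + 2 * Real.log 19 + 2 * Real.log 11) +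
    (2 * Real.log 19 + 2 * Real.log 9)

theorem Csb_nonneg : 0 ≤ Csb := by
  unfold Csb
  have h1 := Real.log_nonneg (by norm_num : (1 : ℝ) ≤ 11)
  have h2 := Real.log_nonneg (by norm_num : (1 : ℝ) ≤ 7)
  have h3 := Real.log_nonneg (by norm_num : (1 : ℝ) ≤ 13)
  have h4 := Real.log_nonneg (by norm_num : (1 : ℝ) ≤ 19)
  have h5 := Real.log_nonneg (by norm_num : (1 : ℝ) ≤ 9)
  linarith

/-- **The inequality of join and meet.** -/
theorem join_meet (G : Fam 2 (w + L)) (T' : G.Ω → ℕ) (hT' : ∀ ω, T' ω < 2 ^ (w + L))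
    (q₀ q₁ : G.Ω → Sec) {c : Bool} {h p s : ℕ} (hs : s ≤ p)
    (hTwo : Two G T' q₀ q₁ c h p)
    (hturn : ∀ ω, 0 < G.p ω → 2 ^ s ≤ |(q₀ ω).a - (q₁ ω).a| ∧
      |(q₀ ω).a - (q₁ ω).a| < 2 ^ (s + 1)) :
    CH G.p (Lab (G.trc w (Nat.le_add_right w L))
        (fun ω => ⟨c, h + s, p - s, (q₀ ω).a / 2 ^ s⟩)) G.Z +
      CH G.p (Lab (G.trc w (Nat.le_add_right w L))
        (fun ω => ⟨c, h - L, p - s, (q₀ ω).a / 2 ^ s⟩)) G.Z ≤
      CH G.p (Lab G q₀) G.Z + CH G.p (Lab (setT G T' hT') q₁) G.Z +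
        2 * (L * Real.log 2) + Csb := by
  have hp := G.isLaw
  have hL : L ≤ h := by have := hTwo.lo; omega
  have main := join_meet_le hp.nonneg (Lab G q₀) (Lab (setT G T' hT') q₁)
    (Lab (G.trc w (Nat.le_add_right w L)) (fun ω => ⟨c, h - L, p - s, (q₀ ω).a / 2 ^ s⟩))
    (Lab (G.trc w (Nat.le_add_right w L)) (fun ω => ⟨c, h + s, p - s, (q₀ ω).a / 2 ^ s⟩)) G.Z
  have m0 := meet_one G G.T G.tim q₀ hs hL (fun _ _ => rfl)
    (fun ω hω => ⟨(hTwo.c0 ω hω).1, (hTwo.c0 ω hω).2.1, (hTwo.c0 ω hω).2.2.1⟩)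
    (fun ω => (q₀ ω).a / 2 ^ s) (k := 1) zero_le_one
    (fun ω _ => by rw [one_mul]; exact rem_zero s _) (fun ω => (Lab G q₀ ω, G.Z ω))
    (fun ω ω' _ _ hh => by
      have h1 := (Prod.ext_iff.1 hh).1
      refine ⟨h1, ?_⟩
      have h2 : q₀ ω = q₀ ω' := (Prod.ext_iff.1 (Prod.ext_iff.1 h1).1).2
      simp only [h2])
  -- the coarse slope from the second label
  have c2 : CH G.p (fun ω => (q₀ ω).a / 2 ^ s)
      (fun ω => (Lab (setT G T' hT') q₁ ω, G.Z ω)) ≤ Real.log 13 := by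
    refine (CH_mono_left hp.nonneg (X' := fun ω => (fun _ : Fin 1 => (q₀ ω).a / 2 ^ s))
      ?_).trans ((cnt_vec hp.nonneg hp.sum_one _ _ (c := 6) ?_).trans (le_of_eq ?_))
    · intro ω ω' _ _ hh
      exact congrFun (Prod.ext_iff.mp hh).1 0
    · intro ω ω' hω hω' hh i
      have h1 := (Prod.ext_iff.1 hh).1
      have h2 : q₁ ω = q₁ ω' := (Prod.ext_iff.1 (Prod.ext_iff.1 h1).1).2
      have h3 := (hturn ω hω).2
      have h4 := (hturn ω' hω').2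
      rw [← h2] at h4
      exact slope_near h3 h4
    · norm_num
  have m1 := meet_one G T' hT' q₁ hs hL hTwo.tm
    (fun ω hω => ⟨(hTwo.c1 ω hω).1, (hTwo.c1 ω hω).2.1, (hTwo.c1 ω hω).2.2.1⟩)
    (fun ω => (q₀ ω).a / 2 ^ s) (k := 3) (by norm_num)
    (fun ω hω => rem_one (hturn ω hω).2)
    (fun ω => ((q₀ ω).a / 2 ^ s, (Lab (setT G T' hT') q₁ ω, G.Z ω)))
    (fun ω ω' _ _ hh => ⟨(Prod.ext_iff.1 (Prod.ext_iff.1 hh).2).1, (Prod.ext_iff.1 hh).1⟩)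
  have m1' := CH_le_add hp.nonneg
    (Lab (G.trc w (Nat.le_add_right w L)) (fun ω => ⟨c, h - L, p - s, (q₀ ω).a / 2 ^ s⟩))
    (fun ω => (q₀ ω).a / 2 ^ s) (fun ω => (Lab (setT G T' hT') q₁ ω, G.Z ω))
  have j0 := join_one G T' hT' q₀ q₁ hs hTwo hturn
  have e1 : Real.log (4 * 1 + 7) = Real.log 11 := by norm_num
  have e2 : Real.log (2 * 1 + 5) = Real.log 7 := by norm_num
  have e3 : Real.log (4 * 3 + 7) = Real.log 19 := by norm_num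
  have e4 : Real.log (2 * 3 + 5) = Real.log 11 := by norm_num
  rw [e1, e2] at m0
  rw [e3, e4] at m1
  unfold Csb
  change CH G.p (Lab (G.trc w (Nat.le_add_right w L))
    (fun ω => ⟨c, h - L, p - s, (q₀ ω).a / 2 ^ s⟩)) (fun ω => (Lab G q₀ ω, G.Z ω)) ≤ _ at m0
  linarith

/-- **(SUB)**. -/
theorem sub_thm : SUBStmt := by
  refine ⟨Csb, Csb_nonneg, ?_⟩
  intro κ hκ0 hκ1 w L R G T' hT' q₀ q₁ c h p s hTwo hR hs hturn
  have hp := G.isLaw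
  have hL : L ≤ h := by have := hTwo.lo; omega
  have hC := Csb_nonneg
  have main := join_meet G T' hT' q₀ q₁ hs hTwo hturn
  -- the four potentials
  have p0 : Psi κ G q₀ = ((w : ℝ) + L) * Real.log 2 +
      (2 * (h : ℝ) + (1 - κ) * p) * Real.log 2 - CH G.p (Lab G q₀) G.Z := by
    unfold Psi
    rw [Ex_eq_const hp (c := (2 * (h : ℝ) + (1 - κ) * p) * Real.log 2)]
    · push_cast
      ring
    · intro ω hω
      obtain ⟨-, h2, h3, -⟩ := hTwo.c0 ω hω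
      rw [h2, h3]
  have p1 : Psi κ (setT G T' hT') q₁ = ((w : ℝ) + L) * Real.log 2 +
      (2 * (h : ℝ) + (1 - κ) * p) * Real.log 2 - CH G.p (Lab (setT G T' hT') q₁) G.Z := by
    unfold Psi
    rw [Ex_eq_const (setT G T' hT').isLaw (c := (2 * (h : ℝ) + (1 - κ) * p) * Real.log 2)]
    · push_cast
      rfl
    · intro ω hω
      obtain ⟨-, h2, h3, -⟩ := hTwo.c1 ω hω
      rw [h2, h3]
  have pJ : Psi κ (G.trc w (Nat.le_add_right w L)) (fun ω => ⟨c, h + s, p - s,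
      (q₀ ω).a / 2 ^ s⟩) = (w : ℝ) * Real.log 2 +
      (2 * ((h : ℝ) + s) + (1 - κ) * ((p : ℝ) - s)) * Real.log 2 -
      CH G.p (Lab (G.trc w (Nat.le_add_right w L))
        (fun ω => ⟨c, h + s, p - s, (q₀ ω).a / 2 ^ s⟩)) G.Z := by
    unfold Psi
    rw [Ex_eq_const (G.trc w (Nat.le_add_right w L)).isLaw
      (c := (2 * ((h : ℝ) + s) + (1 - κ) * ((p : ℝ) - s)) * Real.log 2)]
    · rfl
    · intro ω _
      push_cast [hs]
      rfl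
  have pM : Psi κ (G.trc w (Nat.le_add_right w L)) (fun ω => ⟨c, h - L, p - s,
      (q₀ ω).a / 2 ^ s⟩) = (w : ℝ) * Real.log 2 +
      (2 * ((h : ℝ) - L) + (1 - κ) * ((p : ℝ) - s)) * Real.log 2 -
      CH G.p (Lab (G.trc w (Nat.le_add_right w L))
        (fun ω => ⟨c, h - L, p - s, (q₀ ω).a / 2 ^ s⟩)) G.Z := by
    unfold Psi
    rw [Ex_eq_const (G.trc w (Nat.le_add_right w L)).isLaw
      (c := (2 * ((h : ℝ) - L) + (1 - κ) * ((p : ℝ) - s)) * Real.log 2)]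
    · rfl
    · intro ω _
      push_cast [hs, hL]
      rfl
  -- admissible sections
  have hsl : ∀ ω, 0 < G.p ω → |(q₀ ω).a / 2 ^ s| ≤ 4 * 2 ^ (p - s) := by
    intro ω hω
    obtain ⟨-, -, -, h4⟩ := hTwo.c0 ω hω
    have h2 : (2 : ℤ) ^ p = 2 ^ (p - s) * 2 ^ s := by rw [← pow_add, Nat.sub_add_cancel hs]
    rw [h2] at h4
    rw [abs_le] at h4 ⊢
    have h5 : (0 : ℤ) < 2 ^ s := by positivity
    constructor
    · rw [Int.le_ediv_iff_mul_le h5]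
      linarith [h4.1]
    · have h6 : (q₀ ω).a / 2 ^ s ≤ (4 * 2 ^ (p - s) * 2 ^ s) / 2 ^ s :=
        Int.ediv_le_ediv h5 (by linarith [h4.2])
      rw [Int.mul_ediv_cancel _ h5.ne'] at h6
      exact h6
  have psh : Psh G.p (fun ω : G.Ω => ω) G.p := by
    intro ω
    classical
    unfold law
    rw [Finset.sum_ite_eq' Finset.univ ω]
    simp
  have hlo := hTwo.lo
  rcases le_total (Psi κ (G.trc w (Nat.le_add_right w L)) (fun ω => ⟨c, h - L, p - s,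
      (q₀ ω).a / 2 ^ s⟩)) (Psi κ (G.trc w (Nat.le_add_right w L)) (fun ω => ⟨c, h + s, p - s,
      (q₀ ω).a / 2 ^ s⟩)) with hcase | hcase
  · refine ⟨G.Ω, G.fin, G.p, G.isLaw, fun ω => ω, fun ω => ⟨c, h + s, p - s,
      (q₀ ω).a / 2 ^ s⟩, psh, fun ω hω => ⟨?_, ?_, hsl ω hω⟩, ?_⟩
    · change w ≤ h + s
      omega
    · change h + s + (p - s) ≤ R
      omega
    · change _ ≤ Psi κ (G.trc w (Nat.le_add_right w L)) (fun ω => ⟨c, h + s, p - s,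
        (q₀ ω).a / 2 ^ s⟩)
      rw [p0, p1]
      rw [pJ] at hcase ⊢
      rw [pM] at hcase
      nlinarith
  · refine ⟨G.Ω, G.fin, G.p, G.isLaw, fun ω => ω, fun ω => ⟨c, h - L, p - s,
      (q₀ ω).a / 2 ^ s⟩, psh, fun ω hω => ⟨?_, ?_, hsl ω hω⟩, ?_⟩
    · change w ≤ h - L
      omega
    · change h - L + (p - s) ≤ R
      omega
    · change _ ≤ Psi κ (G.trc w (Nat.le_add_right w L)) (fun ω => ⟨c, h - L, p - s,
        (q₀ ω).a / 2 ^ s⟩)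
      rw [p0, p1]
      rw [pJ] at hcase
      rw [pM] at hcase ⊢
      nlinarith

end Pool.KM7
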