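import Pool.Agent.H55.KM7.Core

/-!
# K_MAX_7, row SUB: the inequality of join and meet
-/

set_option autoImplicit false

namespace Pool.KM7

open Finset Real
open Pool.Agent.H49.Ent Pool.Agent.H32.Dense
open Geo

/-- The angle with number `j` of the grid of mesh `π / 2 ^ p`. -/
noncomputable def ag (p j : ℕ) : ℝ := π * j / 2 ^ p

theorem dm (s j : ℕ) : ∃ r : ℕ, (r : ℝ) ≤ 2 ^ s ∧ (j : ℝ) = 2 ^ s * ((j / 2 ^ s : ℕ) : ℝ) + r := by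
  refine ⟨j % 2 ^ s, ?_, ?_⟩
  · have := (Nat.mod_lt j (by positivity : 0 < 2 ^ s)).le
    exact_mod_cast this
  · have := Nat.div_add_mod j (2 ^ s)
    calc (j : ℝ) = ((2 ^ s * (j / 2 ^ s) + j % 2 ^ s : ℕ) : ℝ) := by rw [this]
      _ = _ := by push_cast; ring

theorem ag_div {p s : ℕ} (hs : s ≤ p) (j : ℕ) : ∃ r : ℕ, (r : ℝ) ≤ 2 ^ s ∧
    (j : ℝ) = 2 ^ s * ((j / 2 ^ s : ℕ) : ℝ) + r ∧ ag (p - s) (j / 2 ^ s) = π * ((j : ℝ) - r) / 2 ^ p := by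
  obtain ⟨r, hr, h1⟩ := dm s j
  refine ⟨r, hr, h1, ?_⟩
  have h2 : (2 : ℝ) ^ p = 2 ^ (p - s) * 2 ^ s := by rw [← pow_add, Nat.sub_add_cancel hs]
  unfold ag
  rw [h2]
  rw [eq_comm, div_eq_div_iff (by positivity) (by positivity)]
  rw [show (j : ℝ) - r = 2 ^ s * ((j / 2 ^ s : ℕ) : ℝ) by linarith]
  ring

section ang

variable {p s j₀ j₁ : ℕ} {n : ℤ}

theorem ang_ge (h1 : (2 : ℝ) ^ s ≤ |(j₁ : ℝ) - j₀ - n * 2 ^ p|)
    (h3 : |(j₁ : ℝ) - j₀ - n * 2 ^ p| ≤ 2 ^ p / 2) :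
    2 * 2 ^ s / 2 ^ p ≤ |sin (ag p j₁ - ag p j₀)| := by
  have h4 := sin_grid_ge (p := p) (k := (j₁ : ℤ) - j₀) (n := n) (by push_cast; exact h3)
  have h5 : π * (((j₁ : ℤ) - j₀ : ℤ) : ℝ) / 2 ^ p = ag p j₁ - ag p j₀ := by
    unfold ag
    push_cast
    ring
  rw [h5] at h4
  refine le_trans ?_ h4
  push_cast
  gcongr

theorem ang_zero (hs : s ≤ p) : |sin (ag (p - s) (j₀ / 2 ^ s) - ag p j₀)| ≤
    4 * 2 ^ s / 2 ^ p := by
  obtain ⟨r, hr, -, h0⟩ := ag_div hs j₀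
  have h1 : ag (p - s) (j₀ / 2 ^ s) - ag p j₀ = π * ((-(r : ℤ) : ℤ) : ℝ) / 2 ^ p := by
    rw [h0]
    unfold ag
    push_cast
    ring
  rw [h1]
  refine (sin_grid_le (n := 0) (c := 2 ^ s) ?_).trans ?_
  · push_cast
    rw [zero_mul, sub_zero, abs_neg, abs_of_nonneg (Nat.cast_nonneg r)]
    exact hr
  · have := pi_lt_four
    gcongr

theorem ang_one (hs : s ≤ p) (h2 : |(j₁ : ℝ) - j₀ - n * 2 ^ p| ≤ 2 ^ (s + 1)) :
    |sin (ag p j₁ - ag (p - s) (j₀ / 2 ^ s))| ≤ 12 * 2 ^ s / 2 ^ p := by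
  obtain ⟨r, hr, -, h0⟩ := ag_div hs j₀
  have h1 : ag p j₁ - ag (p - s) (j₀ / 2 ^ s) =
      π * (((j₁ : ℤ) - j₀ + r : ℤ) : ℝ) / 2 ^ p := by
    rw [h0]
    unfold ag
    push_cast
    ring
  rw [h1]
  refine (sin_grid_le (n := n) (c := 3 * 2 ^ s) ?_).trans ?_
  · push_cast
    have e : (j₁ : ℝ) - j₀ + r - n * 2 ^ p = ((j₁ : ℝ) - j₀ - n * 2 ^ p) + r := by ring
    rw [e]
    refine (abs_add_le _ _).trans ?_
    rw [abs_of_nonneg (Nat.cast_nonneg r : (0 : ℝ) ≤ r)]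
    rw [pow_succ] at h2
    linarith
  · have := pi_lt_four
    have h5 : π * (3 * 2 ^ s) ≤ 12 * 2 ^ s := by
      have : (0 : ℝ) < 2 ^ s := by positivity
      nlinarith
    gcongr

/-- The coarse number of the first angle from the number of the second one. -/
theorem num_near (hs : s ≤ p) (h2 : |(j₁ : ℝ) - j₀ - n * 2 ^ p| ≤ 2 ^ (s + 1)) :
    |((j₀ / 2 ^ s : ℕ) : ℝ) - ((j₁ : ℝ) / 2 ^ s - n * 2 ^ (p - s))| ≤ 3 := by
  obtain ⟨r, hr, h1⟩ := dm s j₀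
  have h3 : (2 : ℝ) ^ p = 2 ^ (p - s) * 2 ^ s := by rw [← pow_add, Nat.sub_add_cancel hs]
  have h4 : (0 : ℝ) < 2 ^ s := by positivity
  rw [h3, pow_succ] at h2
  have e : ((j₀ / 2 ^ s : ℕ) : ℝ) - ((j₁ : ℝ) / 2 ^ s - n * 2 ^ (p - s)) =
      -(((j₁ : ℝ) - j₀ - n * (2 ^ (p - s) * 2 ^ s)) + r) / 2 ^ s := by
    rw [eq_div_iff h4.ne']
    have : (j₁ : ℝ) / 2 ^ s * 2 ^ s = j₁ := by field_simp
    linear_combination (-1 : ℝ) * this - h1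
  rw [e, abs_div, abs_neg, abs_of_pos h4, div_le_iff₀ h4]
  refine (abs_add_le _ _).trans ?_
  rw [abs_of_nonneg (Nat.cast_nonneg r : (0 : ℝ) ≤ r)]
  linarith

end ang

variable {Ω T : Type} [Fintype Ω] {p : Ω → ℝ}

/-- The constant of the inequality of join and meet. -/
noncomputable def Csub : ℝ :=
  4 * Real.log 23 + (Real.log 5 + Real.log 13 + 4 * Real.log 55) +
    (2 * Real.log 13 + 2 * Real.log 71)

/-- The label of a section. -/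
noncomputable def lab (θ A B W : ℝ) (x d : Fin 2 → ℝ) : (Fin 2 → ℤ) × (Fin 2 → ℤ) :=
  (lb θ A B x, lb θ (W * A) (W * B) d)

theorem sub_core (hp : ∀ ω, 0 ≤ p ω) (h1 : ∑ ω, p ω = 1) (W : Ω → T)
    (x d : Ω → Fin 2 → ℝ) (t₀ t₁ tw : Ω → ℝ) (j₀ j₁ : Ω → ℕ) (n : Ω → ℤ) {A W' E : ℝ} {P s : ℕ}
    (hsP : s ≤ P) (hA : 0 < A) (hW' : 0 < W') (hE : 1 ≤ E)
    (ht₀ : ∀ ω, |t₀ ω - tw ω| ≤ 1 / W') (ht₁ : ∀ ω, |t₁ ω - tw ω| ≤ 1 / W')
    (ht : ∀ ω, |t₀ ω - t₁ ω| ≤ 1 / W')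
    (htw : ∀ ω ω', 0 < p ω → 0 < p ω' → W ω = W ω' → tw ω = tw ω')
    (hn : ∀ ω, |n ω| ≤ 1)
    (hj1 : ∀ ω, (2 : ℝ) ^ s ≤ |(j₁ ω : ℝ) - j₀ ω - n ω * 2 ^ P|)
    (hj2 : ∀ ω, |(j₁ ω : ℝ) - j₀ ω - n ω * 2 ^ P| ≤ 2 ^ (s + 1))
    (hj3 : ∀ ω, |(j₁ ω : ℝ) - j₀ ω - n ω * 2 ^ P| ≤ 2 ^ P / 2) :
    CH p (fun ω => (j₀ ω / 2 ^ s, lab (ag (P - s) (j₀ ω / 2 ^ s)) (A / 2 ^ s) (A / 2 ^ P) W'
        (x ω) (d ω))) W +
      CH p (fun ω => (j₀ ω / 2 ^ s, lab (ag (P - s) (j₀ ω / 2 ^ s)) (E * A)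
        (E * A * 2 ^ s / 2 ^ P) W' (x ω) (d ω))) W ≤
      CH p (fun ω => ((t₀ ω, j₀ ω), lab (ag P (j₀ ω)) A (A / 2 ^ P) (W' * E)
        (fun i => x ω i + (t₀ ω - tw ω) * d ω i) (d ω))) W +
      CH p (fun ω => ((t₁ ω, j₁ ω), lab (ag P (j₁ ω)) A (A / 2 ^ P) (W' * E)
        (fun i => x ω i + (t₁ ω - tw ω) * d ω i) (d ω))) W +
      2 * Real.log E + Csub := by
  have hP1 : (1 : ℝ) ≤ 2 ^ P := one_le_pow₀ (by norm_num)
  have hS1 : (1 : ℝ) ≤ 2 ^ s := one_le_pow₀ (by norm_num)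
  have hSP : (2 : ℝ) ^ s ≤ 2 ^ P := pow_le_pow_right₀ (by norm_num) hsP
  have hE0 : 0 < E := zero_lt_one.trans_le hE
  set b₀ : Ω → (ℝ × ℕ) × ((Fin 2 → ℤ) × (Fin 2 → ℤ)) := fun ω => ((t₀ ω, j₀ ω),
    lab (ag P (j₀ ω)) A (A / 2 ^ P) (W' * E) (fun i => x ω i + (t₀ ω - tw ω) * d ω i) (d ω))
    with hb₀
  set b₁ : Ω → (ℝ × ℕ) × ((Fin 2 → ℤ) × (Fin 2 → ℤ)) := fun ω => ((t₁ ω, j₁ ω),
    lab (ag P (j₁ ω)) A (A / 2 ^ P) (W' * E) (fun i => x ω i + (t₁ ω - tw ω) * d ω i) (d ω))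
    with hb₁
  set jj : Ω → ℕ := fun ω => j₀ ω / 2 ^ s with hjj
  set θ' : Ω → ℝ := fun ω => ag (P - s) (jj ω) with hθ'
  have main := join_meet_le hp b₀ b₁
    (fun ω => (jj ω, lab (θ' ω) (E * A) (E * A * 2 ^ s / 2 ^ P) W' (x ω) (d ω)))
    (fun ω => (jj ω, lab (θ' ω) (A / 2 ^ s) (A / 2 ^ P) W' (x ω) (d ω))) W
  -- the meet from the first label
  have m0 : CH p (fun ω => (jj ω, lab (θ' ω) (E * A) (E * A * 2 ^ s / 2 ^ P) W' (x ω) (d ω)))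
      (fun ω => (b₀ ω, W ω)) ≤ 4 * Real.log 23 := by
    refine (CH_mono_left hp (X' := fun ω => lab (θ' ω) (E * A) (E * A * 2 ^ s / 2 ^ P) W'
      (x ω) (d ω)) ?_).trans ?_
    · intro ω ω' _ _ h
      simp only [Prod.mk.injEq, hb₀, hjj] at h ⊢
      exact ⟨by rw [h.2.1.1.2], h.1⟩
    · refine (meet_le hp h1 (fun ω => (b₀ ω, W ω)) x d t₀ tw (fun ω => ag P (j₀ ω)) θ' hA hP1 hS1
        hW' hE (C := 4) (by norm_num) ht₀ (fun ω => ang_zero hsP) ?_).trans (le_of_eq ?_)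
      · intro ω ω' hω hω' h
        simp only [Prod.mk.injEq, hb₀, lab] at h
        obtain ⟨⟨⟨e1, e2⟩, e3, e4⟩, e5⟩ := h
        refine ⟨e1, htw ω ω' hω hω' e5, by rw [e2], by simp only [hθ', hjj, e2], e3, ?_⟩
        rw [show W' * E * A / 2 ^ P = W' * E * (A / 2 ^ P) by ring]
        exact e4
      · norm_num
  -- the meet from the second label
  have m1 : CH p (fun ω => (jj ω, lab (θ' ω) (E * A) (E * A * 2 ^ s / 2 ^ P) W' (x ω) (d ω)))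
      (fun ω => (b₁ ω, W ω)) ≤ Real.log 5 + Real.log 13 + 4 * Real.log 55 := by
    have c1 : CH p n (fun ω => (b₁ ω, W ω)) ≤ Real.log 5 := by
      refine (CH_mono_left hp (X' := fun ω => (fun _ : Fin 1 => n ω)) ?_).trans
        ((vec_const hp h1 _ _ (c := 2) ?_).trans (le_of_eq ?_))
      · intro ω ω' _ _ h
        exact congrFun (Prod.ext_iff.mp h).1 0
      · intro ω ω' _ _ _ i
        have e1 := abs_le.mp (hn ω)
        have e2 := abs_le.mp (hn ω')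
        have e3 : |n ω - n ω'| ≤ 2 := by
          rw [abs_le]
          constructor <;> linarith [e1.1, e1.2, e2.1, e2.2]
        exact_mod_cast e3
      · norm_num
    have c2 : CH p jj (fun ω => (n ω, (b₁ ω, W ω))) ≤ Real.log 13 := by
      refine (CH_mono_left hp (X' := fun ω => (fun _ : Fin 1 => (jj ω : ℤ))) ?_).trans
        ((vec_const hp h1 _ _ (c := 6) ?_).trans (le_of_eq ?_))
      · intro ω ω' _ _ h
        have h5 := congrFun (Prod.ext_iff.mp h).1 0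
        simp only at h5
        exact_mod_cast h5
      · intro ω ω' _ _ hh i
        simp only [Prod.mk.injEq, hb₁] at hh
        have e1 := num_near hsP (hj2 ω)
        have e2 := num_near hsP (hj2 ω')
        rw [← hh.1, ← hh.2.1.1.2] at e2
        have e3 := abs_le.mp e1
        have e4 := abs_le.mp e2
        push_cast
        rw [abs_le]
        simp only [hjj]
        constructor <;> linarith [e3.1, e3.2, e4.1, e4.2]
      · norm_num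
    have c3 : CH p (fun ω => lab (θ' ω) (E * A) (E * A * 2 ^ s / 2 ^ P) W' (x ω) (d ω))
        (fun ω => (jj ω, (b₁ ω, W ω))) ≤ 4 * Real.log 55 := by
      refine (meet_le hp h1 (fun ω => (jj ω, (b₁ ω, W ω))) x d t₁ tw (fun ω => ag P (j₁ ω)) θ' hA
        hP1 hS1 hW' hE (C := 12) (by norm_num) ht₁ (fun ω => ?_) ?_).trans (le_of_eq ?_)
      · rw [← abs_neg, ← sin_neg, neg_sub]
        exact ang_one hsP (hj2 ω)
      · intro ω ω' hω hω' h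
        simp only [Prod.mk.injEq, hb₁, lab] at h
        obtain ⟨e0, ⟨⟨e1, e2⟩, e3, e4⟩, e5⟩ := h
        refine ⟨e1, htw ω ω' hω hω' e5, by rw [e2], by simp only [hθ', e0], e3, ?_⟩
        rw [show W' * E * A / 2 ^ P = W' * E * (A / 2 ^ P) by ring]
        exact e4
      · norm_num
    have c4 := CH_le_add hp jj n (fun ω => (b₁ ω, W ω))
    have c5 : CH p (fun ω => (jj ω, lab (θ' ω) (E * A) (E * A * 2 ^ s / 2 ^ P) W' (x ω) (d ω)))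
        (fun ω => (b₁ ω, W ω)) ≤
        CH p (fun ω => lab (θ' ω) (E * A) (E * A * 2 ^ s / 2 ^ P) W' (x ω) (d ω))
        (fun ω => (jj ω, (b₁ ω, W ω))) + CH p jj (fun ω => (b₁ ω, W ω)) := by
      have e1 := CH_chain hp (fun ω => lab (θ' ω) (E * A) (E * A * 2 ^ s / 2 ^ P) W' (x ω) (d ω))
        jj (fun ω => (b₁ ω, W ω))
      have e2 : CH p (fun ω => (jj ω, lab (θ' ω) (E * A) (E * A * 2 ^ s / 2 ^ P) W' (x ω) (d ω)))
        (fun ω => (b₁ ω, W ω)) ≤ CH p (fun ω => (lab (θ' ω) (E * A) (E * A * 2 ^ s / 2 ^ P) W'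
          (x ω) (d ω), jj ω)) (fun ω => (b₁ ω, W ω)) :=
        CH_mono_left hp (fun ω ω' _ _ h => by
          simp only [Prod.mk.injEq] at h ⊢
          exact ⟨h.1.2, h.1.1⟩)
      linarith
    linarith
  -- the join
  have j0 : CH p (fun ω => (jj ω, lab (θ' ω) (A / 2 ^ s) (A / 2 ^ P) W' (x ω) (d ω)))
      (fun ω => ((b₀ ω, b₁ ω), W ω)) ≤
      2 * Real.log E + (2 * Real.log 13 + 2 * Real.log 71) := by
    refine (CH_mono_left hp (X' := fun ω => lab (θ' ω) (A / 2 ^ s) (A / 2 ^ P) W'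
      (x ω) (d ω)) ?_).trans ?_
    · intro ω ω' _ _ h
      simp only [Prod.mk.injEq, hb₀, hjj] at h ⊢
      exact ⟨by rw [h.2.1.1.1.2], h.1⟩
    · refine (join_le hp h1 (fun ω => ((b₀ ω, b₁ ω), W ω)) x d t₀ t₁ tw (fun ω => ag P (j₀ ω))
        (fun ω => ag P (j₁ ω)) θ' hA hP1 hS1 hSP hW' hE ht₀ ht
        (fun ω => ang_ge (hj1 ω) (hj3 ω)) (fun ω => ang_zero hsP)
        (fun ω => ang_one hsP (hj2 ω)) ?_).trans (le_of_eq (by ring))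
      intro ω ω' hω hω' h
      simp only [Prod.mk.injEq, hb₀, hb₁, lab] at h
      obtain ⟨⟨⟨⟨e1, e2⟩, e3, e4⟩, ⟨⟨e1', e2'⟩, e3', e4'⟩⟩, e5⟩ := h
      refine ⟨⟨e1, e1', htw ω ω' hω hω' e5⟩, ⟨by rw [e2], by rw [e2'],
        by simp only [hθ', hjj, e2]⟩, e3, e3', ?_, ?_⟩
      · rw [show W' * E * A / 2 ^ P = W' * E * (A / 2 ^ P) by ring]
        exact e4
      · rw [show W' * E * A / 2 ^ P = W' * E * (A / 2 ^ P) by ring]
        exact e4'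
  unfold Csub
  linarith

end Pool.KM7
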