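import Pool.Agent.H32.Dense.EntX

/-!
# K_MAX_7, row SUB: the entropy inequality of join and meet
-/

set_option autoImplicit false

namespace Pool.KM7

open Finset Real
open Pool.Agent.H49.Ent Pool.Agent.H32.Dense

variable {Ω B₀ B₁ M J Z : Type} [Fintype Ω] {p : Ω → ℝ}

/-- A common (approximate) function `m` of two variables. -/
theorem common_le (hp : ∀ ω, 0 ≤ p ω) (b₀ : Ω → B₀) (b₁ : Ω → B₁) (m : Ω → M) (z : Ω → Z) :
    CH p (fun ω => (b₀ ω, b₁ ω)) z + CH p m z ≤ CH p b₀ z + CH p b₁ z +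
      CH p m (fun ω => (b₀ ω, z ω)) + CH p m (fun ω => (b₁ ω, z ω)) := by
  have h1 := CH_chain hp (fun ω => (b₀ ω, b₁ ω)) m z
  have h2 : CH p (fun ω => (b₀ ω, b₁ ω)) z ≤ CH p (fun ω => ((b₀ ω, b₁ ω), m ω)) z :=
    CH_mono_left hp (fun ω ω' _ _ h => by
      simp only [Prod.mk.injEq] at h ⊢
      exact h.1.1)
  have h3 := CH_subadd hp b₀ b₁ (fun ω => (m ω, z ω))
  have h4 := CH_chain hp b₀ m z
  have h5 := CH_chain hp m b₀ z
  have h6 := CH_chain hp b₁ m z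
  have h7 := CH_chain hp m b₁ z
  have h8 : CH p (fun ω => (b₀ ω, m ω)) z = CH p (fun ω => (m ω, b₀ ω)) z := by
    refine CH_congr hp ?_ ?_ (fun _ _ _ _ h => h) (fun _ _ _ _ h => h)
    · intro ω ω' _ _ h
      simp only [Prod.mk.injEq] at h ⊢
      exact ⟨h.1.2, h.1.1⟩
    · intro ω ω' _ _ h
      simp only [Prod.mk.injEq] at h ⊢
      exact ⟨h.1.2, h.1.1⟩
  have h9 : CH p (fun ω => (b₁ ω, m ω)) z = CH p (fun ω => (m ω, b₁ ω)) z := by
    refine CH_congr hp ?_ ?_ (fun _ _ _ _ h => h) (fun _ _ _ _ h => h)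
    · intro ω ω' _ _ h
      simp only [Prod.mk.injEq] at h ⊢
      exact ⟨h.1.2, h.1.1⟩
    · intro ω ω' _ _ h
      simp only [Prod.mk.injEq] at h ⊢
      exact ⟨h.1.2, h.1.1⟩
  linarith

/-- **Join and meet.** -/
theorem join_meet_le (hp : ∀ ω, 0 ≤ p ω) (b₀ : Ω → B₀) (b₁ : Ω → B₁) (m : Ω → M) (j : Ω → J)
    (z : Ω → Z) :
    CH p j z + CH p m z ≤ CH p b₀ z + CH p b₁ z +
      CH p m (fun ω => (b₀ ω, z ω)) + CH p m (fun ω => (b₁ ω, z ω)) +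
      CH p j (fun ω => ((b₀ ω, b₁ ω), z ω)) := by
  have h1 := CH_le_add hp j (fun ω => (b₀ ω, b₁ ω)) z
  have h2 := common_le hp b₀ b₁ m z
  linarith

end Pool.KM7
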