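import Pool.Agent.H55.KM7.Geo
import Pool.Agent.H55.KM7.Info

/-!
# K_MAX_7, row SUB: the labels of join and meet
-/

set_option autoImplicit false

namespace Pool.KM7

open Finset Real
open Pool.Agent.H49.Ent Pool.Agent.H32.Dense
open Geo

/-- The cell of a vector in the grid of sides `A`, `B` in the direction `θ`. -/
noncomputable def lb (θ A B : ℝ) (x : Fin 2 → ℝ) : Fin 2 → ℤ := ![⌊ce θ x / A⌋, ⌊cn θ x / B⌋]

private theorem fl_eq {x y : ℝ} (h : ⌊x⌋ = ⌊y⌋) : |x - y| ≤ 1 := (Int.abs_sub_lt_one_of_floor_eq_floor h).le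

private theorem fl_near {x y c : ℝ} (h : |x - y| ≤ c) : |((⌊x⌋ - ⌊y⌋ : ℤ) : ℝ)| ≤ c + 1 := by
  have h1 := Int.floor_le x
  have h2 := Int.lt_floor_add_one x
  have h3 := Int.floor_le y
  have h4 := Int.lt_floor_add_one y
  rw [abs_le] at h ⊢
  push_cast
  constructor <;> linarith [h.1, h.2]

theorem lb_eq {θ A B : ℝ} (hA : 0 < A) (hB : 0 < B) {x y : Fin 2 → ℝ}
    (h : lb θ A B x = lb θ A B y) :
    |ce θ (fun i => x i - y i)| ≤ A ∧ |cn θ (fun i => x i - y i)| ≤ B := by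
  have h0 := congrFun h 0
  have h1 := congrFun h 1
  simp only [lb, Matrix.cons_val_zero, Matrix.cons_val_one] at h0 h1
  have h2 := fl_eq h0
  have h3 := fl_eq h1
  rw [← sub_div, abs_div, abs_of_pos hA, div_le_one hA] at h2
  rw [← sub_div, abs_div, abs_of_pos hB, div_le_one hB] at h3
  rw [ce_sub, cn_sub]
  exact ⟨h2, h3⟩

theorem lb_near {θ A B κ : ℝ} (hA : 0 < A) (hB : 0 < B) {x y : Fin 2 → ℝ}
    (h1 : |ce θ (fun i => x i - y i)| ≤ κ * A) (h2 : |cn θ (fun i => x i - y i)| ≤ κ * B)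
    (i : Fin 2) : |((lb θ A B x i - lb θ A B y i : ℤ) : ℝ)| ≤ κ + 1 := by
  rw [ce_sub] at h1
  rw [cn_sub] at h2
  fin_cases i
  · refine fl_near ?_
    rw [← sub_div, abs_div, abs_of_pos hA, div_le_iff₀ hA]
    exact h1
  · refine fl_near ?_
    rw [← sub_div, abs_div, abs_of_pos hB, div_le_iff₀ hB]
    exact h2

variable {Ω T : Type} [Fintype Ω] {p : Ω → ℝ}

theorem vec_const {k : ℕ} (hp : ∀ ω, 0 ≤ p ω) (h1 : ∑ ω, p ω = 1) (X : Ω → Fin k → ℤ)
    (W : Ω → T) {c : ℝ}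
    (h : ∀ ω ω', 0 < p ω → 0 < p ω' → W ω = W ω' → ∀ i, |((X ω i - X ω' i : ℤ) : ℝ)| ≤ c) :
    CH p X W ≤ k * Real.log (2 * c + 1) := by
  have h2 := CH_le_vec hp h1 X W (fun _ => c) h
  rwa [Ex_const h1] at h2

/-- **The meet**: it is known from either label. -/
theorem meet_le (hp : ∀ ω, 0 ≤ p ω) (h1 : ∑ ω, p ω = 1) (W : Ω → T)
    (x d : Ω → Fin 2 → ℝ) (t tw : Ω → ℝ) (θ θ' : Ω → ℝ) {A P S W' E C : ℝ}
    (hA : 0 < A) (hP : 1 ≤ P) (hS : 1 ≤ S) (hW' : 0 < W') (hE : 1 ≤ E) (hC : 1 ≤ C)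
    (ht : ∀ ω, |t ω - tw ω| ≤ 1 / W')
    (hθ : ∀ ω, |sin (θ' ω - θ ω)| ≤ C * S / P)
    (hd : ∀ ω ω', 0 < p ω → 0 < p ω' → W ω = W ω' → t ω = t ω' ∧ tw ω = tw ω' ∧ θ ω = θ ω' ∧
      θ' ω = θ' ω' ∧
      lb (θ ω) A (A / P) (fun i => x ω i + (t ω - tw ω) * d ω i) =
        lb (θ ω') A (A / P) (fun i => x ω' i + (t ω' - tw ω') * d ω' i) ∧
      lb (θ ω) (W' * E * A) (W' * E * A / P) (d ω) =
        lb (θ ω') (W' * E * A) (W' * E * A / P) (d ω')) :
    CH p (fun ω => (lb (θ' ω) (E * A) (E * A * S / P) (x ω),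
      lb (θ' ω) (W' * (E * A)) (W' * (E * A * S / P)) (d ω))) W ≤
      4 * Real.log (4 * C + 7) := by
  have hP0 : 0 < P := zero_lt_one.trans_le hP
  have hS0 : 0 < S := zero_lt_one.trans_le hS
  have hE0 : 0 < E := zero_lt_one.trans_le hE
  refine (CH_subadd hp _ _ W).trans ?_
  have a1 : CH p (fun ω => lb (θ' ω) (E * A) (E * A * S / P) (x ω)) W ≤
      (2 : ℕ) * Real.log (2 * (2 * (1 + C) + 1) + 1) := by
    refine vec_const hp h1 _ W fun ω ω' hω hω' hW => ?_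
    obtain ⟨e1, e2, e3, e4, e5, e6⟩ := hd ω ω' hω hω' hW
    rw [← e3] at e5 e6
    rw [← e4]
    obtain ⟨f1, f2⟩ := lb_eq hA (by positivity) e5
    obtain ⟨g1, g2⟩ := lb_eq (by positivity) (by positivity) e6
    set v : Fin 2 → ℝ := fun i => x ω i - x ω' i with hv
    have k1 : ∀ φ, ce φ v = ce φ (fun i => (x ω i + (t ω - tw ω) * d ω i) -
        (x ω' i + (t ω' - tw ω') * d ω' i)) - (t ω - tw ω) * ce φ (fun i => d ω i - d ω' i) := by
      intro φ
      rw [← e1, ← e2]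
      simp only [ce, hv]
      ring
    have k2 : ∀ φ, cn φ v = cn φ (fun i => (x ω i + (t ω - tw ω) * d ω i) -
        (x ω' i + (t ω' - tw ω') * d ω' i)) - (t ω - tw ω) * cn φ (fun i => d ω i - d ω' i) := by
      intro φ
      rw [← e1, ← e2]
      simp only [cn, hv]
      ring
    have l1 : |ce (θ ω) v| ≤ (2 * E) * A := by
      rw [k1]
      refine (abs_sub _ _).trans ?_
      rw [abs_mul]
      have : |t ω - tw ω| * |ce (θ ω) (fun i => d ω i - d ω' i)| ≤ 1 / W' * (W' * E * A) :=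
        mul_le_mul (ht ω) g1 (abs_nonneg _) (by positivity)
      have h3 : 1 / W' * (W' * E * A) = E * A := by field_simp
      nlinarith
    have l2 : |cn (θ ω) v| ≤ (2 * E) * (A / P) := by
      rw [k2]
      refine (abs_sub _ _).trans ?_
      rw [abs_mul]
      have : |t ω - tw ω| * |cn (θ ω) (fun i => d ω i - d ω' i)| ≤ 1 / W' * (W' * E * A / P) :=
        mul_le_mul (ht ω) g2 (abs_nonneg _) (by positivity)
      have h3 : 1 / W' * (W' * E * A / P) = E * (A / P) := by field_simp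
      have h4 : 0 < A / P := by positivity
      nlinarith
    obtain ⟨m1, m2⟩ := meet_vec hA hP0 hS (by positivity) hP (hθ ω) l1 l2
    refine fun i => lb_near (κ := 2 * (1 + C)) (by positivity) (by positivity) (m1.trans ?_)
      (m2.trans (le_of_eq ?_)) i
    · have : 0 < E * A := by positivity
      nlinarith
    · ring
  have a2 : CH p (fun ω => lb (θ' ω) (W' * (E * A)) (W' * (E * A * S / P)) (d ω)) W ≤
      (2 : ℕ) * Real.log (2 * ((1 + C) + 1) + 1) := by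
    refine vec_const hp h1 _ W fun ω ω' hω hω' hW => ?_
    obtain ⟨e1, e2, e3, e4, e5, e6⟩ := hd ω ω' hω hω' hW
    rw [← e3] at e5 e6
    rw [← e4]
    obtain ⟨g1, g2⟩ := lb_eq (by positivity) (by positivity) e6
    obtain ⟨m1, m2⟩ := meet_vec (A := W' * E * A) (κ := 1) (by positivity) hP0 hS (by positivity)
      hP (hθ ω) (by rw [one_mul]; exact g1) (by rw [one_mul]; exact g2)
    refine fun i => lb_near (κ := 1 + C) (by positivity) (by positivity) (m1.trans ?_)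
      (m2.trans (le_of_eq ?_)) i
    · have : 0 < W' * E * A := by positivity
      nlinarith
    · ring
  have h3 : Real.log (2 * (2 * (1 + C) + 1) + 1) = Real.log (4 * C + 7) := by
    congr 1; ring
  have h4 : Real.log (2 * ((1 + C) + 1) + 1) ≤ Real.log (4 * C + 7) :=
    Real.log_le_log (by positivity) (by linarith)
  rw [h3] at a1
  push_cast at a1 a2
  linarith

/-- **The join**: it is known from the two labels and `2 L` bits. -/
theorem join_le (hp : ∀ ω, 0 ≤ p ω) (h1 : ∑ ω, p ω = 1) (W : Ω → T)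
    (x d : Ω → Fin 2 → ℝ) (t₀ t₁ tw : Ω → ℝ) (θ₀ θ₁ θ' : Ω → ℝ) {A P S W' E : ℝ}
    (hA : 0 < A) (hP : 1 ≤ P) (hS : 1 ≤ S) (hSP : S ≤ P) (hW' : 0 < W') (hE : 1 ≤ E)
    (ht₀ : ∀ ω, |t₀ ω - tw ω| ≤ 1 / W') (ht : ∀ ω, |t₀ ω - t₁ ω| ≤ 1 / W')
    (hθ : ∀ ω, 2 * S / P ≤ |sin (θ₁ ω - θ₀ ω)|)
    (hθ' : ∀ ω, |sin (θ' ω - θ₀ ω)| ≤ 4 * S / P)
    (hθ'' : ∀ ω, |sin (θ₁ ω - θ' ω)| ≤ 12 * S / P)
    (hd : ∀ ω ω', 0 < p ω → 0 < p ω' → W ω = W ω' →
      (t₀ ω = t₀ ω' ∧ t₁ ω = t₁ ω' ∧ tw ω = tw ω') ∧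
      (θ₀ ω = θ₀ ω' ∧ θ₁ ω = θ₁ ω' ∧ θ' ω = θ' ω') ∧
      lb (θ₀ ω) A (A / P) (fun i => x ω i + (t₀ ω - tw ω) * d ω i) =
        lb (θ₀ ω') A (A / P) (fun i => x ω' i + (t₀ ω' - tw ω') * d ω' i) ∧
      lb (θ₁ ω) A (A / P) (fun i => x ω i + (t₁ ω - tw ω) * d ω i) =
        lb (θ₁ ω') A (A / P) (fun i => x ω' i + (t₁ ω' - tw ω') * d ω' i) ∧
      lb (θ₀ ω) (W' * E * A) (W' * E * A / P) (d ω) =
        lb (θ₀ ω') (W' * E * A) (W' * E * A / P) (d ω') ∧
      lb (θ₁ ω) (W' * E * A) (W' * E * A / P) (d ω) =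
        lb (θ₁ ω') (W' * E * A) (W' * E * A / P) (d ω')) :
    CH p (fun ω => (lb (θ' ω) (A / S) (A / P) (x ω),
      lb (θ' ω) (W' * (A / S)) (W' * (A / P)) (d ω))) W ≤
      2 * Real.log E + 2 * Real.log 13 + 2 * Real.log 71 := by
  have hP0 : 0 < P := zero_lt_one.trans_le hP
  have hS0 : 0 < S := zero_lt_one.trans_le hS
  have hE0 : 0 < E := zero_lt_one.trans_le hE
  rw [CH_chain hp]
  have a1 : CH p (fun ω => lb (θ' ω) (W' * (A / S)) (W' * (A / P)) (d ω)) W ≤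
      (2 : ℕ) * Real.log (2 * (5 * E + 1) + 1) := by
    refine vec_const hp h1 _ W fun ω ω' hω hω' hW => ?_
    obtain ⟨⟨e1, e2, e3⟩, ⟨e4, e5, e6⟩, e7, e8, e9, e10⟩ := hd ω ω' hω hω' hW
    rw [← e4] at e7 e9
    rw [← e5] at e8 e10
    rw [← e6]
    obtain ⟨g1, g2⟩ := lb_eq (by positivity) (by positivity) e9
    obtain ⟨g3, g4⟩ := lb_eq (by positivity) (by positivity) e10
    obtain ⟨m1, m2⟩ := join_vel (A := W' * E * A) (by positivity) hP0 hS0 hSP (hθ ω) (hθ' ω)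
      g2 g4
    refine fun i => lb_near (κ := 5 * E) (by positivity) (by positivity) (m1.trans ?_)
      (m2.trans (le_of_eq ?_)) i
    · have : W' * E * A / S = E * (W' * (A / S)) := by ring
      rw [this]
      have : 0 < E * (W' * (A / S)) := by positivity
      nlinarith
    · ring
  have a2 : CH p (fun ω => lb (θ' ω) (A / S) (A / P) (x ω))
      (fun ω => (lb (θ' ω) (W' * (A / S)) (W' * (A / P)) (d ω), W ω)) ≤
      (2 : ℕ) * Real.log (2 * (34 + 1) + 1) := by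
    refine vec_const hp h1 _ _ fun ω ω' hω hω' hW => ?_
    simp only [Prod.mk.injEq] at hW
    obtain ⟨hW1, hW2⟩ := hW
    obtain ⟨⟨e1, e2, e3⟩, ⟨e4, e5, e6⟩, e7, e8, e9, e10⟩ := hd ω ω' hω hω' hW2
    rw [← e4] at e7 e9
    rw [← e5] at e8 e10
    rw [← e6] at hW1 ⊢
    obtain ⟨f1, f2⟩ := lb_eq (by positivity) (by positivity) e7
    obtain ⟨f3, f4⟩ := lb_eq (by positivity) (by positivity) e8
    obtain ⟨g1, g2⟩ := lb_eq (by positivity) (by positivity) hW1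
    set dd : Fin 2 → ℝ := fun i => d ω i - d ω' i with hdd
    have c1 : |ce (θ' ω) (fun i => (t₀ ω - t₁ ω) * dd i)| ≤ 1 * (A / S) := by
      rw [ce_smul, abs_mul]
      refine (mul_le_mul (ht ω) g1 (abs_nonneg _) (by positivity)).trans (le_of_eq ?_)
      field_simp
    have c2 : |cn (θ' ω) (fun i => (t₀ ω - t₁ ω) * dd i)| ≤ 1 * (A / P) := by
      rw [cn_smul, abs_mul]
      refine (mul_le_mul (ht ω) g2 (abs_nonneg _) (by positivity)).trans (le_of_eq ?_)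
      field_simp
    have c3 : |(t₀ ω - tw ω) * ce (θ' ω) dd| ≤ A / S := by
      rw [abs_mul]
      refine (mul_le_mul (ht₀ ω) g1 (abs_nonneg _) (by positivity)).trans (le_of_eq ?_)
      field_simp
    have c4 : |(t₀ ω - tw ω) * cn (θ' ω) dd| ≤ A / P := by
      rw [abs_mul]
      refine (mul_le_mul (ht₀ ω) g2 (abs_nonneg _) (by positivity)).trans (le_of_eq ?_)
      field_simp
    obtain ⟨m1, m2⟩ := join_pos hA hP0 hS0 hSP le_rfl (hθ ω) (hθ' ω) (hθ'' ω)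
      (x₀ := fun i => (x ω i + (t₀ ω - tw ω) * d ω i) - (x ω' i + (t₀ ω' - tw ω') * d ω' i))
      (x₁ := fun i => (x ω i + (t₁ ω - tw ω) * d ω i) - (x ω' i + (t₁ ω' - tw ω') * d ω' i))
      (v := fun i => (t₀ ω - t₁ ω) * dd i)
      (fun i => by rw [← e1, ← e2, ← e3, hdd]; ring) f2 f4 c1 c2
    set v : Fin 2 → ℝ := fun i => x ω i - x ω' i with hv
    have k1 : ∀ φ, ce φ v = ce φ (fun i => (x ω i + (t₀ ω - tw ω) * d ω i) -
        (x ω' i + (t₀ ω' - tw ω') * d ω' i)) - (t₀ ω - tw ω) * ce φ dd := by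
      intro φ
      rw [← e1, ← e3]
      simp only [ce, hv, hdd]
      ring
    have k2 : ∀ φ, cn φ v = cn φ (fun i => (x ω i + (t₀ ω - tw ω) * d ω i) -
        (x ω' i + (t₀ ω' - tw ω') * d ω' i)) - (t₀ ω - tw ω) * cn φ dd := by
      intro φ
      rw [← e1, ← e3]
      simp only [cn, hv, hdd]
      ring
    refine fun i => lb_near (κ := 34) (by positivity) (by positivity) ?_ ?_ i
    · change |ce (θ' ω) v| ≤ _
      rw [k1]
      refine (abs_sub _ _).trans ?_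
      have : 0 < A / S := by positivity
      linarith
    · change |cn (θ' ω) v| ≤ _
      rw [k2]
      refine (abs_sub _ _).trans ?_
      have : 0 < A / P := by positivity
      linarith
  have h3 : Real.log (2 * (5 * E + 1) + 1) ≤ Real.log E + Real.log 13 := by
    rw [← Real.log_mul hE0.ne' (by norm_num)]
    exact Real.log_le_log (by positivity) (by linarith)
  have h4 : Real.log (2 * (34 + 1) + 1) = Real.log 71 := by norm_num
  rw [h4] at a2
  push_cast at a1 a2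
  linarith

end Pool.KM7
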