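import Mathlib

/-!
# K_MAX_7, row SUB: rotated coordinates in the plane
-/

set_option autoImplicit false

namespace Pool.KM7.Geo

open Real

/-- The coordinate along the direction of angle `θ`. -/
noncomputable def ce (θ : ℝ) (x : Fin 2 → ℝ) : ℝ := x 0 * cos θ + x 1 * sin θ

/-- The coordinate normal to the direction of angle `θ`. -/
noncomputable def cn (θ : ℝ) (x : Fin 2 → ℝ) : ℝ := x 1 * cos θ - x 0 * sin θ

theorem ce_sub (θ : ℝ) (x y : Fin 2 → ℝ) : ce θ (fun i => x i - y i) = ce θ x - ce θ y := by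
  unfold ce; ring

theorem cn_sub (θ : ℝ) (x y : Fin 2 → ℝ) : cn θ (fun i => x i - y i) = cn θ x - cn θ y := by
  unfold cn; ring

theorem ce_add_smul (θ c : ℝ) (x y : Fin 2 → ℝ) :
    ce θ (fun i => x i + c * y i) = ce θ x + c * ce θ y := by
  unfold ce; ring

theorem cn_add_smul (θ c : ℝ) (x y : Fin 2 → ℝ) :
    cn θ (fun i => x i + c * y i) = cn θ x + c * cn θ y := by
  unfold cn; ring

theorem ce_smul (θ c : ℝ) (x : Fin 2 → ℝ) : ce θ (fun i => c * x i) = c * ce θ x := by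
  unfold ce; ring

theorem cn_smul (θ c : ℝ) (x : Fin 2 → ℝ) : cn θ (fun i => c * x i) = c * cn θ x := by
  unfold cn; ring

/-- Change of the angle. -/
theorem ce_rot (θ θ' : ℝ) (x : Fin 2 → ℝ) :
    ce θ' x = cos (θ' - θ) * ce θ x + sin (θ' - θ) * cn θ x := by
  unfold ce cn
  have h1 : cos θ' = cos (θ' - θ) * cos θ - sin (θ' - θ) * sin θ := by
    rw [← cos_add]; congr 1; ring
  have h2 : sin θ' = sin (θ' - θ) * cos θ + cos (θ' - θ) * sin θ := by
    rw [← sin_add]; congr 1; ring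
  rw [h1, h2]
  ring

theorem cn_rot (θ θ' : ℝ) (x : Fin 2 → ℝ) :
    cn θ' x = cos (θ' - θ) * cn θ x - sin (θ' - θ) * ce θ x := by
  unfold ce cn
  have h1 : cos θ' = cos (θ' - θ) * cos θ - sin (θ' - θ) * sin θ := by
    rw [← cos_add]; congr 1; ring
  have h2 : sin θ' = sin (θ' - θ) * cos θ + cos (θ' - θ) * sin θ := by
    rw [← sin_add]; congr 1; ring
  rw [h1, h2]
  ring

theorem ce_le {θ θ' a b : ℝ} {x : Fin 2 → ℝ} (h1 : |ce θ x| ≤ a) (h2 : |cn θ x| ≤ b) :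
    |ce θ' x| ≤ a + b := by
  rw [ce_rot θ θ' x]
  have hc := abs_cos_le_one (θ' - θ)
  have hs := abs_sin_le_one (θ' - θ)
  calc |cos (θ' - θ) * ce θ x + sin (θ' - θ) * cn θ x| ≤
        |cos (θ' - θ) * ce θ x| + |sin (θ' - θ) * cn θ x| := abs_add_le _ _
    _ ≤ 1 * a + 1 * b := by
        rw [abs_mul, abs_mul]
        exact add_le_add (mul_le_mul hc h1 (abs_nonneg _) zero_le_one)
          (mul_le_mul hs h2 (abs_nonneg _) zero_le_one)
    _ = a + b := by ring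

theorem cn_le {θ θ' a b σ : ℝ} {x : Fin 2 → ℝ} (hσ : |sin (θ' - θ)| ≤ σ) (h1 : |ce θ x| ≤ a)
    (h2 : |cn θ x| ≤ b) : |cn θ' x| ≤ b + σ * a := by
  rw [cn_rot θ θ' x]
  have hc := abs_cos_le_one (θ' - θ)
  have hσ0 : 0 ≤ σ := (abs_nonneg _).trans hσ
  calc |cos (θ' - θ) * cn θ x - sin (θ' - θ) * ce θ x| ≤
        |cos (θ' - θ) * cn θ x| + |sin (θ' - θ) * ce θ x| := abs_sub _ _
    _ ≤ 1 * b + σ * a := by
        rw [abs_mul, abs_mul]
        exact add_le_add (mul_le_mul hc h2 (abs_nonneg _) zero_le_one)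
          (mul_le_mul hσ h1 (abs_nonneg _) hσ0)
    _ = b + σ * a := by ring

/-- Two transversal strips meet in a short parallelogram. -/
theorem ce_of_two {θ θ' a b σ : ℝ} {x : Fin 2 → ℝ} (hσ0 : 0 < σ) (hσ : σ ≤ |sin (θ' - θ)|)
    (h1 : |cn θ x| ≤ a) (h2 : |cn θ' x| ≤ b) : |ce θ x| ≤ (a + b) / σ := by
  have h := cn_rot θ θ' x
  have hc := abs_cos_le_one (θ' - θ)
  have h3 : |sin (θ' - θ) * ce θ x| ≤ a + b := by
    have h4 : sin (θ' - θ) * ce θ x = cos (θ' - θ) * cn θ x - cn θ' x := by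
      rw [h]; ring
    rw [h4]
    calc |cos (θ' - θ) * cn θ x - cn θ' x| ≤ |cos (θ' - θ) * cn θ x| + |cn θ' x| := abs_sub _ _
      _ ≤ 1 * a + b := by
          rw [abs_mul]
          exact add_le_add (mul_le_mul hc h1 (abs_nonneg _) zero_le_one) h2
      _ = a + b := by ring
  rw [abs_mul] at h3
  rw [le_div_iff₀ hσ0]
  calc |ce θ x| * σ ≤ |ce θ x| * |sin (θ' - θ)| := mul_le_mul_of_nonneg_left hσ (abs_nonneg _)
    _ = |sin (θ' - θ)| * |ce θ x| := mul_comm _ _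
    _ ≤ a + b := h3

/-! ### Angles on a grid -/

theorem abs_sin_int (x : ℝ) (n : ℤ) : |sin (x + n * π)| = |sin x| := by
  rw [Real.sin_add_int_mul_pi]
  rw [abs_mul]
  have : |((-1 : ℝ)) ^ n| = 1 := by
    rw [abs_zpow, abs_neg, abs_one, one_zpow]
  rw [this, one_mul]

/-- The sine of the difference of two angles of the grid, from above. -/
theorem sin_grid_le {p : ℕ} {k n : ℤ} {c : ℝ} (h : |(k : ℝ) - n * 2 ^ p| ≤ c) :
    |sin (π * k / 2 ^ p)| ≤ π * c / 2 ^ p := by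
  have h1 : π * k / 2 ^ p = π * (k - n * 2 ^ p) / 2 ^ p + n * π := by
    field_simp
    ring
  rw [h1, abs_sin_int]
  refine (abs_sin_le_abs).trans ?_
  rw [abs_div, abs_mul, abs_of_pos pi_pos, abs_of_pos (by positivity : (0 : ℝ) < 2 ^ p)]
  gcongr

/-- The sine of the difference of two angles of the grid, from below. -/
theorem sin_grid_ge {p : ℕ} {k n : ℤ} (h : |(k : ℝ) - n * 2 ^ p| ≤ 2 ^ p / 2) :
    2 * |(k : ℝ) - n * 2 ^ p| / 2 ^ p ≤ |sin (π * k / 2 ^ p)| := by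
  have hp : (0 : ℝ) < 2 ^ p := by positivity
  have h1 : π * k / 2 ^ p = π * (k - n * 2 ^ p) / 2 ^ p + n * π := by
    field_simp
    ring
  rw [h1, abs_sin_int]
  set y : ℝ := (k : ℝ) - n * 2 ^ p with hy
  have h2 : |sin (π * y / 2 ^ p)| = sin (π * |y| / 2 ^ p) := by
    rcases le_or_gt 0 y with h0 | h0
    · rw [abs_of_nonneg h0, abs_of_nonneg]
      apply sin_nonneg_of_nonneg_of_le_pi (by positivity)
      rw [div_le_iff₀ hp]
      rw [abs_of_nonneg h0] at h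
      nlinarith [pi_pos]
    · rw [abs_of_neg h0]
      have h3 : π * y / 2 ^ p = -(π * -y / 2 ^ p) := by ring
      rw [h3, sin_neg, abs_neg, abs_of_nonneg]
      apply sin_nonneg_of_nonneg_of_le_pi
      · have : 0 ≤ -y := by linarith
        positivity
      · rw [div_le_iff₀ hp]
        rw [abs_of_neg h0] at h
        nlinarith [pi_pos]
  rw [h2]
  have h4 := Real.mul_le_sin (x := π * |y| / 2 ^ p) (by positivity) (by
    rw [div_le_iff₀ hp]
    nlinarith [pi_pos])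
  refine le_trans (le_of_eq ?_) h4
  field_simp

/-! ### Join and meet of two sections

`A = 2 ^ (-a)` and `B = 2 ^ (-(a + p))` are the sides of the sections, `S = 2 ^ s`, `P = 2 ^ p`,
`B = A / P`; the two directions are at distance between `2 S / P` and `8 S / P`. -/

section box

variable {θ₀ θ₁ θ' A P S : ℝ}

/-- The difference of the velocities in the join. -/
theorem join_vel (hA : 0 < A) (hP : 0 < P) (hS : 0 < S) (hSP : S ≤ P)
    (h1 : 2 * S / P ≤ |sin (θ₁ - θ₀)|) (h' : |sin (θ' - θ₀)| ≤ 4 * S / P) {v : Fin 2 → ℝ}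
    (h0 : |cn θ₀ v| ≤ A / P) (h2 : |cn θ₁ v| ≤ A / P) :
    |ce θ' v| ≤ 2 * (A / S) ∧ |cn θ' v| ≤ 5 * (A / P) := by
  have h3 : |ce θ₀ v| ≤ A / S := by
    refine (ce_of_two (by positivity) h1 h0 h2).trans (le_of_eq ?_)
    field_simp
    ring
  have h4 : A / P ≤ A / S := by
    rw [div_le_div_iff₀ hP hS]
    nlinarith
  refine ⟨(ce_le (θ' := θ') h3 h0).trans (by linarith), (cn_le h' h3 h0).trans (le_of_eq ?_)⟩
  field_simp
  ring

/-- A vector in the join section, seen from the second section. -/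
theorem join_second (hA : 0 < A) (hP : 0 < P) (hS : 0 < S) {κ : ℝ}
    (h' : |sin (θ₁ - θ')| ≤ 12 * S / P) {v : Fin 2 → ℝ}
    (h0 : |ce θ' v| ≤ κ * (A / S)) (h2 : |cn θ' v| ≤ κ * (A / P)) :
    |cn θ₁ v| ≤ 13 * κ * (A / P) := by
  refine (cn_le h' h0 h2).trans (le_of_eq ?_)
  field_simp
  ring

/-- The difference of the positions in the join. -/
theorem join_pos (hA : 0 < A) (hP : 0 < P) (hS : 0 < S) (hSP : S ≤ P) {κ : ℝ} (hκ : 1 ≤ κ)
    (h1 : 2 * S / P ≤ |sin (θ₁ - θ₀)|) (h' : |sin (θ' - θ₀)| ≤ 4 * S / P)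
    (h'' : |sin (θ₁ - θ')| ≤ 12 * S / P) {x₀ x₁ v : Fin 2 → ℝ} (hx : ∀ i, x₀ i = x₁ i + v i)
    (h0 : |cn θ₀ x₀| ≤ A / P) (h2 : |cn θ₁ x₁| ≤ A / P)
    (h3 : |ce θ' v| ≤ κ * (A / S)) (h4 : |cn θ' v| ≤ κ * (A / P)) :
    |ce θ' x₀| ≤ 9 * κ * (A / S) ∧ |cn θ' x₀| ≤ 33 * κ * (A / P) := by
  have hκ0 : 0 ≤ κ := zero_le_one.trans hκ
  have hAP : 0 < A / P := by positivity
  have hAS : 0 < A / S := by positivity
  have h5 : |cn θ₁ x₀| ≤ (1 + 13 * κ) * (A / P) := by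
    have h6 : cn θ₁ x₀ = cn θ₁ x₁ + cn θ₁ v := by
      unfold cn
      rw [hx 0, hx 1]
      ring
    have h7 := join_second hA hP hS h'' h3 h4
    rw [h6]
    refine (abs_add_le _ _).trans ?_
    linarith
  have h8 : |ce θ₀ x₀| ≤ 8 * κ * (A / S) := by
    refine (ce_of_two (by positivity) h1 h0 h5).trans ?_
    have h9 : (A / P + (1 + 13 * κ) * (A / P)) / (2 * S / P) = (1 + 13 / 2 * κ) * (A / S) := by
      field_simp
      ring
    rw [h9]
    refine mul_le_mul_of_nonneg_right ?_ hAS.le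
    linarith
  have h10 : A / P ≤ A / S := by
    rw [div_le_div_iff₀ hP hS]
    nlinarith
  constructor
  · refine (ce_le (θ' := θ') h8 h0).trans ?_
    nlinarith
  · refine (cn_le h' h8 h0).trans ?_
    have h11 : 4 * S / P * (8 * κ * (A / S)) = 32 * κ * (A / P) := by
      field_simp
      ring
    rw [h11]
    nlinarith

/-- A vector of the first section, seen from the meet section. -/
theorem meet_vec (hA : 0 < A) (hP : 0 < P) (hS : 1 ≤ S) {C κ : ℝ}
    (hκ : 0 ≤ κ) (hP1 : 1 ≤ P)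
    (h' : |sin (θ' - θ₀)| ≤ C * S / P) {v : Fin 2 → ℝ}
    (h0 : |ce θ₀ v| ≤ κ * A) (h2 : |cn θ₀ v| ≤ κ * (A / P)) :
    |ce θ' v| ≤ 2 * κ * A ∧ |cn θ' v| ≤ (1 + C) * κ * (A * S / P) := by
  have hAP : A / P ≤ A := by
    rw [div_le_iff₀ hP]
    nlinarith
  have hAP' : A / P ≤ A * S / P := by
    rw [div_le_div_iff₀ hP hP]
    nlinarith [mul_nonneg hA.le (sub_nonneg.mpr hS)]
  constructor
  · refine (ce_le (θ' := θ') h0 h2).trans ?_
    nlinarith
  · refine (cn_le h' h0 h2).trans ?_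
    have h3 : C * S / P * (κ * A) = C * κ * (A * S / P) := by
      ring
    rw [h3]
    nlinarith

end box

end Pool.KM7.Geo
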