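import Pool.Agent.H15.KM7.Stmts
import Pool.Agent.H55.KM7.Info

/-!
# K_MAX_7, row SUB
-/

set_option autoImplicit false

namespace Pool.KM7

open Finset Real
open Pool.Agent.H49.Ent Pool.Agent.H32.Dense Pool.STK Pool.KA

/-! ### Coordinates -/

theorem co_zero (q : Sec) (x : Fin 2 → ℝ) :
    q.co x 0 = 2 ^ q.h * (2 ^ q.p * x (ix q.c) + q.a * x (iy q.c)) := rfl

theorem co_one (q : Sec) (x : Fin 2 → ℝ) : q.co x 1 = 2 ^ q.h * x (iy q.c) := rfl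

theorem co_sub (q : Sec) (x y : Fin 2 → ℝ) (i : Fin 2) :
    q.co (fun i => x i - y i) i = q.co x i - q.co y i := by
  fin_cases i
  · change q.co (fun i => x i - y i) 0 = q.co x 0 - q.co y 0
    rw [co_zero, co_zero, co_zero]
    ring
  · change q.co (fun i => x i - y i) 1 = q.co x 1 - q.co y 1
    rw [co_one, co_one, co_one]
    ring

theorem sub_fl_eq {x y : ℝ} (h : ⌊x⌋ = ⌊y⌋) : |x - y| ≤ 1 :=
  (Int.abs_sub_lt_one_of_floor_eq_floor h).le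

theorem sub_fl_near {x y c : ℝ} (h : |x - y| ≤ c) : |((⌊x⌋ - ⌊y⌋ : ℤ) : ℝ)| ≤ c + 1 := by
  have h1 := Int.floor_le x
  have h2 := Int.lt_floor_add_one x
  have h3 := Int.floor_le y
  have h4 := Int.lt_floor_add_one y
  rw [abs_le] at h ⊢
  push_cast
  constructor <;> linarith [h.1, h.2]

theorem lb_co {q : Sec} {x y : Fin 2 → ℝ} (h : q.lb x = q.lb y) (i : Fin 2) :
    |q.co (fun i => x i - y i) i| ≤ 1 := by
  rw [co_sub]
  exact sub_fl_eq (congrFun h i)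

/-- Counting by the diameter. -/
theorem cnt_vec {Ω T : Type} [Fintype Ω] {p : Ω → ℝ} {k : ℕ} (hp : ∀ ω, 0 ≤ p ω)
    (h1 : ∑ ω, p ω = 1) (X : Ω → Fin k → ℤ) (W : Ω → T) {c : ℝ}
    (h : ∀ ω ω', 0 < p ω → 0 < p ω' → W ω = W ω' → ∀ i, |((X ω i - X ω' i : ℤ) : ℝ)| ≤ c) :
    CH p X W ≤ k * Real.log (2 * c + 1) := by
  have h2 := CH_le_vec hp h1 X W (fun _ => c) h
  rwa [Ex_const h1] at h2

/-- Counting the labels. -/
theorem lab_count {w : ℕ} (F : Fam 2 w) (q : F.Ω → Sec) {T : Type} (W : F.Ω → T) {K₁ K₂ : ℝ}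
    (hq : ∀ ω ω', 0 < F.p ω → 0 < F.p ω' → W ω = W ω' → F.T ω = F.T ω' ∧ q ω = q ω')
    (h2 : ∀ ω ω', 0 < F.p ω → 0 < F.p ω' → W ω = W ω' → ∀ i,
      |(q ω).co (fun i => F.d ω i / 2 ^ w - F.d ω' i / 2 ^ w) i| ≤ K₂)
    (h1 : ∀ ω ω', 0 < F.p ω → 0 < F.p ω' → W ω = W ω' →
      (∀ i, |(q ω).co (fun i => F.d ω i / 2 ^ w - F.d ω' i / 2 ^ w) i| ≤ 1) → ∀ i,
      |(q ω).co (fun i => F.x ω i - F.x ω' i) i| ≤ K₁) :
    CH F.p (Lab F q) W ≤ 2 * Real.log (2 * (K₁ + 1) + 1) + 2 * Real.log (2 * (K₂ + 1) + 1) := by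
  have hp := F.isLaw
  have a0 : CH F.p (Lab F q) W ≤ CH F.p (fun ω => ((q ω).lb (F.x ω),
      (q ω).lb (fun i => F.d ω i / 2 ^ w))) W := by
    refine CH_mono_left hp.nonneg fun ω ω' hω hω' h => ?_
    have e1 := Prod.ext_iff.1 h
    obtain ⟨e2, e3⟩ := hq ω ω' hω hω' e1.2
    exact Prod.ext (Prod.ext e2 e3) e1.1
  refine a0.trans ?_
  rw [CH_chain hp.nonneg]
  have a1 : CH F.p (fun ω => (q ω).lb (fun i => F.d ω i / 2 ^ w)) W ≤
      (2 : ℕ) * Real.log (2 * (K₂ + 1) + 1) := by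
    refine cnt_vec hp.nonneg hp.sum_one _ W fun ω ω' hω hω' h i => ?_
    obtain ⟨-, e⟩ := hq ω ω' hω hω' h
    have h3 := h2 ω ω' hω hω' h i
    rw [co_sub] at h3
    rw [← e]
    exact sub_fl_near h3
  have a2 : CH F.p (fun ω => (q ω).lb (F.x ω))
      (fun ω => ((q ω).lb (fun i => F.d ω i / 2 ^ w), W ω)) ≤
      (2 : ℕ) * Real.log (2 * (K₁ + 1) + 1) := by
    refine cnt_vec hp.nonneg hp.sum_one _ _ fun ω ω' hω hω' h i => ?_
    have e1 := Prod.ext_iff.1 h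
    obtain ⟨-, e⟩ := hq ω ω' hω hω' e1.2
    have e2 : (q ω).lb (fun i => F.d ω i / 2 ^ w) = (q ω).lb (fun i => F.d ω' i / 2 ^ w) := by
      have := e1.1
      simp only at this
      rw [← e] at this
      exact this
    have h3 := h1 ω ω' hω hω' e1.2 (lb_co e2) i
    rw [co_sub] at h3
    rw [← e]
    exact sub_fl_near h3
  push_cast at a1 a2
  linarith


/-! ### Join and meet sections -/

theorem co_join {c : Bool} {h p s : ℕ} (hs : s ≤ p) (a a' : ℤ) (v : Fin 2 → ℝ) :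
    (Sec.mk c (h + s) (p - s) a').co v 0 = (Sec.mk c h p a).co v 0 -
      ((a : ℝ) - 2 ^ s * a') * (Sec.mk c h p a).co v 1 ∧
    (Sec.mk c (h + s) (p - s) a').co v 1 = 2 ^ s * (Sec.mk c h p a).co v 1 := by
  have h2 : (2 : ℝ) ^ p = 2 ^ (p - s) * 2 ^ s := by rw [← pow_add, Nat.sub_add_cancel hs]
  rw [co_zero, co_one, co_zero, co_one]
  simp only
  rw [pow_add, h2]
  constructor <;> ring

theorem co_meet {c : Bool} {h p s L : ℕ} (hs : s ≤ p) (hL : L ≤ h) (a a' : ℤ) (v : Fin 2 → ℝ) :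
    (Sec.mk c (h - L) (p - s) a').co v 0 * (2 ^ s * 2 ^ L) = (Sec.mk c h p a).co v 0 -
      ((a : ℝ) - 2 ^ s * a') * (Sec.mk c h p a).co v 1 ∧
    (Sec.mk c (h - L) (p - s) a').co v 1 * 2 ^ L = (Sec.mk c h p a).co v 1 := by
  have h2 : (2 : ℝ) ^ p = 2 ^ (p - s) * 2 ^ s := by rw [← pow_add, Nat.sub_add_cancel hs]
  have h3 : (2 : ℝ) ^ h = 2 ^ (h - L) * 2 ^ L := by rw [← pow_add, Nat.sub_add_cancel hL]
  rw [co_zero, co_one, co_zero, co_one]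
  simp only
  rw [h2, h3]
  constructor <;> ring

/-- The remainder of the first slope. -/
theorem rem_zero (s : ℕ) (a : ℤ) : |(a : ℝ) - 2 ^ s * ((a / 2 ^ s : ℤ) : ℝ)| ≤ 2 ^ s := by
  have h1 := Int.emod_nonneg a (by positivity : (2 : ℤ) ^ s ≠ 0)
  have h2 := (Int.emod_lt_of_pos a (by positivity : (0 : ℤ) < 2 ^ s)).le
  have h3 : a - 2 ^ s * (a / 2 ^ s) = a % 2 ^ s := by
    have := Int.mul_ediv_add_emod a (2 ^ s)
    linarith
  have h4 : (a : ℝ) - 2 ^ s * ((a / 2 ^ s : ℤ) : ℝ) = ((a % 2 ^ s : ℤ) : ℝ) := by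
    rw [← h3]
    push_cast
    ring
  rw [h4, abs_of_nonneg (by exact_mod_cast h1)]
  exact_mod_cast h2

/-- The remainder of the second slope. -/
theorem rem_one {s : ℕ} {a₀ a₁ : ℤ} (h : |a₀ - a₁| < 2 ^ (s + 1)) :
    |(a₁ : ℝ) - 2 ^ s * ((a₀ / 2 ^ s : ℤ) : ℝ)| ≤ 3 * 2 ^ s := by
  have h1 := rem_zero s a₀
  have h2 : |((a₀ - a₁ : ℤ) : ℝ)| < ((2 ^ (s + 1) : ℤ) : ℝ) := by exact_mod_cast h
  push_cast at h2
  rw [pow_succ] at h2
  rw [abs_le] at h1 ⊢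
  rw [abs_lt] at h2
  constructor <;> linarith [h1.1, h1.2, h2.1, h2.2]

/-- The coarse slope from the second one. -/
theorem slope_near {s : ℕ} {a₀ a₁ b₀ : ℤ} (h : |a₀ - a₁| < 2 ^ (s + 1))
    (h' : |b₀ - a₁| < 2 ^ (s + 1)) : |(((a₀ / 2 ^ s - b₀ / 2 ^ s : ℤ)) : ℝ)| ≤ 6 := by
  have h1 := rem_one h
  have h2 := rem_one h'
  have h3 : (0 : ℝ) < 2 ^ s := by positivity
  have h4 : 2 ^ s * (((a₀ / 2 ^ s : ℤ) : ℝ) - ((b₀ / 2 ^ s : ℤ) : ℝ)) =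
      ((a₁ : ℝ) - 2 ^ s * ((b₀ / 2 ^ s : ℤ) : ℝ)) -
        ((a₁ : ℝ) - 2 ^ s * ((a₀ / 2 ^ s : ℤ) : ℝ)) := by ring
  have h5 : |2 ^ s * (((a₀ / 2 ^ s : ℤ) : ℝ) - ((b₀ / 2 ^ s : ℤ) : ℝ))| ≤ 6 * 2 ^ s := by
    rw [h4]
    refine (abs_sub _ _).trans ?_
    linarith
  rw [abs_mul, abs_of_pos h3] at h5
  push_cast
  have h6 : 2 ^ s * |((a₀ / 2 ^ s : ℤ) : ℝ) - ((b₀ / 2 ^ s : ℤ) : ℝ)| ≤ 2 ^ s * 6 := by linarith
  exact le_of_mul_le_mul_left h6 h3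

/-! ### Equal labels -/

/-- The position at the beginning of the window `n`. -/
noncomputable def xw {J : ℕ} (G : Fam 2 J) (w n : ℕ) (ω : G.Ω) (i : Fin 2) : ℝ :=
  G.u ω i + (n : ℝ) / 2 ^ w * G.d ω i

theorem lab_facts {w L : ℕ} (G : Fam 2 (w + L)) (q : G.Ω → Sec) {ω ω' : G.Ω}
    (h : Lab G q ω = Lab G q ω') : G.T ω = G.T ω' ∧ q ω = q ω' ∧
      ∃ τ : ℝ, 0 ≤ τ ∧ τ ≤ 1 ∧
        (∀ i, |(q ω).co (fun i => xw G w (G.T ω / 2 ^ L) ω i - xw G w (G.T ω / 2 ^ L) ω' i) i +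
          τ * (q ω).co (fun i => G.d ω i / 2 ^ w - G.d ω' i / 2 ^ w) i| ≤ 1) ∧
        ∀ i, |(q ω).co (fun i => G.d ω i / 2 ^ w - G.d ω' i / 2 ^ w) i| ≤ 2 ^ L := by
  have e1 := Prod.ext_iff.1 h
  have e2 := Prod.ext_iff.1 e1.1
  have e3 := Prod.ext_iff.1 e1.2
  have hT : G.T ω = G.T ω' := e2.1
  have hq : q ω = q ω' := e2.2
  have hx : (q ω).lb (G.x ω) = (q ω).lb (G.x ω') := by
    have : (q ω).lb (G.x ω) = (q ω').lb (G.x ω') := e3.1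
    rwa [← hq] at this
  have hd : (q ω).lb (fun i => G.d ω i / 2 ^ (w + L)) =
      (q ω).lb (fun i => G.d ω' i / 2 ^ (w + L)) := by
    have : (q ω).lb (fun i => G.d ω i / 2 ^ (w + L)) =
      (q ω').lb (fun i => G.d ω' i / 2 ^ (w + L)) := e3.2
    rwa [← hq] at this
  have pL : (0 : ℝ) < 2 ^ L := by positivity
  have pw : (0 : ℝ) < 2 ^ w := by positivity
  obtain ⟨t, ht⟩ : ∃ t : ℝ, t = (G.T ω : ℝ) / 2 ^ L - ((G.T ω / 2 ^ L : ℕ) : ℝ) := ⟨_, rfl⟩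
  have ht0 : 0 ≤ t ∧ t ≤ 1 := by
    have h1 : ((G.T ω / 2 ^ L : ℕ) : ℝ) * 2 ^ L ≤ G.T ω := by
      exact_mod_cast Nat.div_mul_le_self (G.T ω) (2 ^ L)
    have h2 : (G.T ω : ℝ) ≤ ((G.T ω / 2 ^ L : ℕ) : ℝ) * 2 ^ L + 2 ^ L := by
      have := (Nat.lt_mul_div_succ (G.T ω) (by positivity : 0 < 2 ^ L)).le
      have h3 : (G.T ω : ℝ) ≤ ((2 ^ L * (G.T ω / 2 ^ L + 1) : ℕ) : ℝ) := by exact_mod_cast this
      push_cast at h3
      linarith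
    rw [ht]
    constructor
    · rw [sub_nonneg, le_div_iff₀ pL]
      exact h1
    · rw [sub_le_iff_le_add, div_le_iff₀ pL]
      linarith
  have hxw : ∀ ω₁, G.T ω₁ = G.T ω → ∀ i, G.x ω₁ i = xw G w (G.T ω / 2 ^ L) ω₁ i +
      t * (G.d ω₁ i / 2 ^ w) := by
    intro ω₁ h1 i
    unfold Fam.x Fam.t xw
    rw [h1, ht, pow_add]
    field_simp
    ring
  refine ⟨hT, hq, t, ht0.1, ht0.2, fun i => ?_, fun i => ?_⟩
  · have h1 := lb_co hx i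
    rw [co_sub] at h1 ⊢
    rw [co_sub]
    have h2 : ∀ ω₁, G.T ω₁ = G.T ω → (q ω).co (G.x ω₁) i =
        (q ω).co (fun i => xw G w (G.T ω / 2 ^ L) ω₁ i) i +
          t * (q ω).co (fun i => G.d ω₁ i / 2 ^ w) i := by
      intro ω₁ h3
      fin_cases i
      · change (q ω).co (G.x ω₁) 0 = (q ω).co (fun i => xw G w (G.T ω / 2 ^ L) ω₁ i) 0 +
          t * (q ω).co (fun i => G.d ω₁ i / 2 ^ w) 0
        rw [co_zero, co_zero, co_zero, hxw ω₁ h3, hxw ω₁ h3]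
        ring
      · change (q ω).co (G.x ω₁) 1 = (q ω).co (fun i => xw G w (G.T ω / 2 ^ L) ω₁ i) 1 +
          t * (q ω).co (fun i => G.d ω₁ i / 2 ^ w) 1
        rw [co_one, co_one, co_one, hxw ω₁ h3]
        ring
    rw [h2 ω rfl, h2 ω' hT.symm] at h1
    have e : (q ω).co (fun i => xw G w (G.T ω / 2 ^ L) ω i) i -
        (q ω).co (fun i => xw G w (G.T ω / 2 ^ L) ω' i) i +
        t * ((q ω).co (fun i => G.d ω i / 2 ^ w) i - (q ω).co (fun i => G.d ω' i / 2 ^ w) i) =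
        (q ω).co (fun i => xw G w (G.T ω / 2 ^ L) ω i) i +
          t * (q ω).co (fun i => G.d ω i / 2 ^ w) i -
        ((q ω).co (fun i => xw G w (G.T ω / 2 ^ L) ω' i) i +
          t * (q ω).co (fun i => G.d ω' i / 2 ^ w) i) := by ring
    rw [e]
    exact h1
  · have h1 := lb_co hd i
    rw [co_sub] at h1 ⊢
    have h2 : ∀ ω₁, (q ω).co (fun i => G.d ω₁ i / 2 ^ (w + L)) i * 2 ^ L =
        (q ω).co (fun i => G.d ω₁ i / 2 ^ w) i := by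
      intro ω₁
      fin_cases i
      · change (q ω).co (fun i => G.d ω₁ i / 2 ^ (w + L)) 0 * 2 ^ L =
          (q ω).co (fun i => G.d ω₁ i / 2 ^ w) 0
        rw [co_zero, co_zero, pow_add]
        field_simp
      · change (q ω).co (fun i => G.d ω₁ i / 2 ^ (w + L)) 1 * 2 ^ L =
          (q ω).co (fun i => G.d ω₁ i / 2 ^ w) 1
        rw [co_one, co_one, pow_add]
        field_simp
    rw [← h2 ω, ← h2 ω', ← sub_mul, abs_mul, abs_of_pos pL]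
    nlinarith

/-! ### The join and the meet -/

theorem num_comb {S k e A g r : ℝ} (hS : 1 ≤ S) (he : 0 ≤ e) (hr : |r| ≤ k * S) (hA : |A| ≤ e)
    (hg : |g| ≤ e) : |A - r * g| ≤ (1 + k) * e * S := by
  refine (abs_sub _ _).trans ?_
  rw [abs_mul]
  have h1 : |r| * |g| ≤ k * S * e := mul_le_mul hr hg (abs_nonneg _) ((abs_nonneg _).trans hr)
  nlinarith [mul_nonneg he (sub_nonneg.2 hS)]

theorem meet_co {c : Bool} {h p s L : ℕ} (hs : s ≤ p) (hL : L ≤ h) {a a' : ℤ} {k : ℝ}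
    (hk : 0 ≤ k) (hr : |(a : ℝ) - 2 ^ s * a'| ≤ k * 2 ^ s) {v : Fin 2 → ℝ} {b : ℝ}
    (hb : 0 ≤ b) (hv : ∀ i, |(Sec.mk c h p a).co v i| ≤ b * 2 ^ L) (i : Fin 2) :
    |(Sec.mk c (h - L) (p - s) a').co v i| ≤ (1 + k) * b := by
  obtain ⟨h1, h2⟩ := co_meet (c := c) hs hL a a' v
  have pS : (1 : ℝ) ≤ 2 ^ s := one_le_pow₀ (by norm_num)
  have pL : (0 : ℝ) < 2 ^ L := by positivity
  have pS0 : (0 : ℝ) < 2 ^ s := by positivity
  fin_cases i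
  · change |(Sec.mk c (h - L) (p - s) a').co v 0| ≤ (1 + k) * b
    have h3 := num_comb pS (by positivity : 0 ≤ b * 2 ^ L) hr (hv 0) (hv 1)
    rw [← h1, abs_mul, abs_of_pos (by positivity : (0 : ℝ) < 2 ^ s * 2 ^ L)] at h3
    have h4 : (1 + k) * (b * 2 ^ L) * 2 ^ s = (1 + k) * b * (2 ^ s * 2 ^ L) := by ring
    rw [h4] at h3
    exact le_of_mul_le_mul_right h3 (by positivity)
  · change |(Sec.mk c (h - L) (p - s) a').co v 1| ≤ (1 + k) * b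
    have h3 := hv 1
    rw [← h2, abs_mul, abs_of_pos pL] at h3
    have h4 := le_of_mul_le_mul_right h3 pL
    nlinarith [mul_nonneg hk hb]

/-- The difference of the positions in the join. -/
theorem num_join {S A₀ A₁ B₀ B₁ g e a₀ a₁ a' τ τ' : ℝ} (hS : 1 ≤ S)
    (hA : A₁ - A₀ = (a₁ - a₀) * g) (hB : B₁ - B₀ = (a₁ - a₀) * e)
    (ha : S ≤ |a₁ - a₀|) (hr : |a₀ - a'| ≤ S) (hr1 : |a₁ - a'| ≤ 3 * S)
    (hτ : 0 ≤ τ ∧ τ ≤ 1) (hτ' : 0 ≤ τ' ∧ τ' ≤ 1)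
    (h0 : |B₀ + τ * A₀| ≤ 1) (h1 : |B₁ + τ' * A₁| ≤ 1)
    (hd0 : |A₀ - (a₀ - a') * g| ≤ 1) (hd1 : |S * g| ≤ 1) :
    |B₀ - (a₀ - a') * e| ≤ 8 ∧ |S * e| ≤ 8 := by
  have hS0 : 0 < S := zero_lt_one.trans_le hS
  have hg : S * |g| ≤ 1 := by
    rwa [abs_mul, abs_of_pos hS0] at hd1
  -- the second velocity
  have hA1 : |A₁| ≤ 4 := by
    have e1 : A₁ = (A₀ - (a₀ - a') * g) + (a₁ - a') * g := by linear_combination hA
    rw [e1]
    refine (abs_add_le _ _).trans ?_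
    rw [abs_mul (a₁ - a')]
    have : |a₁ - a'| * |g| ≤ 3 * S * |g| := mul_le_mul_of_nonneg_right hr1 (abs_nonneg _)
    nlinarith
  have hB1 : |B₁ + τ * A₁| ≤ 5 := by
    have e1 : B₁ + τ * A₁ = (B₁ + τ' * A₁) + (τ - τ') * A₁ := by ring
    rw [e1]
    refine (abs_add_le _ _).trans ?_
    rw [abs_mul]
    have h2 : |τ - τ'| ≤ 1 := by
      rw [abs_le]
      constructor <;> linarith [hτ.1, hτ.2, hτ'.1, hτ'.2]
    have : |τ - τ'| * |A₁| ≤ 1 * 4 := mul_le_mul h2 hA1 (abs_nonneg _) (by norm_num)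
    linarith
  have hE : S * |e + τ * g| ≤ 6 := by
    have e1 : (a₁ - a₀) * (e + τ * g) = (B₁ + τ * A₁) - (B₀ + τ * A₀) := by
      linear_combination -hB - τ * hA
    have h2 : |a₁ - a₀| * |e + τ * g| ≤ 6 := by
      rw [← abs_mul, e1]
      refine (abs_sub _ _).trans ?_
      linarith
    exact (mul_le_mul_of_nonneg_right ha (abs_nonneg _)).trans h2
  have hτg : |τ * g| * S ≤ 1 := by
    rw [abs_mul, abs_of_nonneg hτ.1]
    have : τ * |g| * S ≤ 1 * |g| * S := by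
      refine mul_le_mul_of_nonneg_right ?_ hS0.le
      exact mul_le_mul_of_nonneg_right hτ.2 (abs_nonneg _)
    linarith
  constructor
  · have e1 : B₀ - (a₀ - a') * e = (B₀ + τ * A₀) - (a₀ - a') * (e + τ * g) -
        τ * (A₀ - (a₀ - a') * g) := by ring
    rw [e1]
    refine (abs_sub _ _).trans ?_
    have h3 : |(B₀ + τ * A₀) - (a₀ - a') * (e + τ * g)| ≤ 7 := by
      refine (abs_sub _ _).trans ?_
      rw [abs_mul (a₀ - a')]
      have : |a₀ - a'| * |e + τ * g| ≤ S * |e + τ * g| :=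
        mul_le_mul_of_nonneg_right hr (abs_nonneg _)
      linarith
    have h4 : |τ * (A₀ - (a₀ - a') * g)| ≤ 1 := by
      rw [abs_mul, abs_of_nonneg hτ.1]
      calc _ ≤ 1 * 1 := mul_le_mul hτ.2 hd0 (abs_nonneg _) (by norm_num)
        _ = (1 : ℝ) := by ring
    linarith
  · rw [abs_mul, abs_of_pos hS0]
    have e1 : e = (e + τ * g) - τ * g := by ring
    rw [e1]
    have := abs_sub (e + τ * g) (τ * g)
    nlinarith

/-- The difference of the velocities in the join. -/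
theorem num_join_d {S E A₀ A₁ g a₀ a₁ a' : ℝ} (hS : 1 ≤ S)
    (hA : A₁ - A₀ = (a₁ - a₀) * g)
    (ha : S ≤ |a₁ - a₀|) (hr : |a₀ - a'| ≤ S) (h0 : |A₀| ≤ E) (h1 : |A₁| ≤ E) :
    |A₀ - (a₀ - a') * g| ≤ 3 * E ∧ |S * g| ≤ 3 * E := by
  have hS0 : 0 < S := zero_lt_one.trans_le hS
  have h2 : S * |g| ≤ 2 * E := by
    have h3 : |a₁ - a₀| * |g| ≤ 2 * E := by
      rw [← abs_mul, ← hA]
      refine (abs_sub _ _).trans ?_
      linarith
    exact (mul_le_mul_of_nonneg_right ha (abs_nonneg _)).trans h3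
  constructor
  · refine (abs_sub _ _).trans ?_
    rw [abs_mul (a₀ - a')]
    have : |a₀ - a'| * |g| ≤ S * |g| := mul_le_mul_of_nonneg_right hr (abs_nonneg _)
    linarith
  · rw [abs_mul, abs_of_pos hS0]
    have : 0 ≤ E := (abs_nonneg _).trans h0
    linarith

end Pool.KM7
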